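import Mathlib
import Pool.Agent.Lib.MP_4fb322_lc_h21.Basic

set_option autoImplicit false

/-!
# Weakly sparse ages of arbitrary arity: definitions and small lemmas (all proved)
-/

namespace Pool.Agent.Lib.MP_4fb322_lc_h91x

open Set Pool.Agent.Lib.MP_4fb322_lc_h70 Pool.Agent.Lib.MP_4fb322_lc_h91
open Pool.Agent.Lib.MP_4fb322_lc_h21

variable {I : Type} {ar : I → ℕ} {V : Type}

/-- a fixed nonprincipal ultrafilter on `ℕ` -/
noncomputable abbrev UF : Filter ℕ := (Filter.hyperfilter ℕ : Filter ℕ)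

/-- `f` is an embedding of `T ∪ A` which is the identity on `T` and has values in `X` on `A` -/
def RM (M : (i : I) → Set (Fin (ar i) → V)) (T A X : Set V) (f : V → V) : Prop :=
  PE M (T ∪ A) f ∧ (∀ x ∈ T, f x = x) ∧ ∀ y ∈ A, f y ∈ X

/-- `A` embeds over `T` into almost every `X m`, and no set of bounded size can prevent it -/
def Robust (M : (i : I) → Set (Fin (ar i) → V)) (T : Set V) (X : ℕ → Finset V)
    (A : Set V) : Prop :=
  ∀ c : ℕ, ∀ᶠ m in UF, ∀ Y : Finset V, Y.card ≤ c → RE M T A ((X m : Set V) \ (Y : Set V))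

/-- the part of `a m` outside `P` -/
noncomputable def Xa (P : Set V) (a : ℕ → Finset V) (m : ℕ) : Finset V :=
  (((a m).finite_toSet).subset (Set.sdiff_subset (t := P))).toFinset

/-- the component of `x` in the finite set `X` (adjacency witnessed in `P ∪ X`) -/
def Cmp (M : (i : I) → Set (Fin (ar i) → V)) (δ : I → Prop) (P X : Set V) (x : V) : Set V :=
  {y | Linked (Rel M δ (P ∪ X)) X x y}

/-- `Core` with two more fields: the age has no smaller non-wqo sub-age, and every `a j` has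
the least possible number of points outside `P` among its copies in `V` -/
structure Core2 (M : (i : I) → Set (Fin (ar i) → V)) (δ : I → Prop) (t : ℕ) (P : Set V)
    (pc : V → ℕ) (a : ℕ → Finset V) : Prop where
  core : Core M δ t P pc a
  minAge : ∀ 𝒞 : Set (Str ar), 𝒞 ⊆ ageOn M Set.univ → IsAge 𝒞 → ¬ NoAntichain 𝒞 →
    𝒞 = ageOn M Set.univ
  irr : ∀ (j : ℕ) (f : V → V), PE M (a j : Set V) f →
    ((a j : Set V) \ P).ncard ≤ (f '' (a j : Set V) \ P).ncard

/-- arrows between sequences of finite sets, with infinite precision over `P` -/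
def Arr (M : (i : I) → Set (Fin (ar i) → V)) (P : Set V) (D E : ℕ → Finset V) : Prop :=
  ∀ᶠ n in UF, ∀ T : Set V, T.Finite → T ⊆ P → ∀ᶠ m in UF, RE M T (D n : Set V) (E m : Set V)

/-- `D m 0, ..., D m (q-1)` are the components of `X m` containing a copy of `C` over `T` -/
def Spec (M : (i : I) → Set (Fin (ar i) → V)) (δ : I → Prop) (P T : Set V) (C X : Finset V)
    {q : ℕ} (D : Fin q → Finset V) : Prop :=
  (∀ i, ∃ x ∈ X, (D i : Set V) = Cmp M δ P (X : Set V) x) ∧ Function.Injective D ∧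
    (∀ i, RE M T (C : Set V) (D i : Set V)) ∧
    ∀ x ∈ X, RE M T (C : Set V) (Cmp M δ P (X : Set V) x) →
      ∃ i, (D i : Set V) = Cmp M δ P (X : Set V) x

variable {M : (i : I) → Set (Fin (ar i) → V)} {δ : I → Prop} {t : ℕ} {P : Set V}
  {pc : V → ℕ} {a : ℕ → Finset V}

theorem mem_Xa {m : ℕ} {x : V} : x ∈ Xa P a m ↔ x ∈ a m ∧ x ∉ P := by
  simp [Xa]

theorem coe_Xa (m : ℕ) : (Xa P a m : Set V) = (a m : Set V) \ P := by
  ext x
  simp [mem_Xa]

theorem Xa_sub (m : ℕ) : (Xa P a m : Set V) ⊆ Pᶜ := by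
  intro x hx
  rw [coe_Xa] at hx
  exact hx.2

theorem RE_iff {T A X : Set V} : RE M T A X ↔ ∃ f, RM M T A X f := Iff.rfl

theorem RE.root {T T' A X : Set V} (h : RE M T A X) (hT : T' ⊆ T) : RE M T' A X := by
  obtain ⟨f, hf, hfT, hfX⟩ := h
  exact ⟨f, PE_mono hf (Set.union_subset_union_left _ hT), fun x hx => hfT x (hT hx), hfX⟩

theorem RM.re {T A X : Set V} {f : V → V} (h : RM M T A X f) : RE M T A X := ⟨f, h⟩

theorem Robust.re {T : Set V} {X : ℕ → Finset V} {A : Set V} (h : Robust M T X A) :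
    ∀ᶠ m in UF, RE M T A (X m : Set V) := by
  filter_upwards [h 0] with m hm
  have := hm ∅ (by simp)
  simpa using this

theorem Robust.mono {T : Set V} {X : ℕ → Finset V} {A B : Set V} (h : Robust M T X B)
    (hAB : RE M T A B) : Robust M T X A := by
  intro c
  filter_upwards [h c] with m hm Y hY
  exact hAB.trans (hm Y hY)

/-- membership in the ultrafilter implies infinite -/
theorem uf_infinite {Ω : Set ℕ} (h : Ω ∈ UF) : Ω.Infinite := by
  intro hfin
  have h1 : Ωᶜ ∈ UF := Filter.hyperfilter_le_cofinite (by simpa using hfin)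
  have h2 := Filter.inter_mem h h1
  rw [Set.inter_compl_self] at h2
  exact Filter.empty_notMem _ h2

theorem uf_ne (k : ℕ) : ∀ᶠ m in UF, m ≠ k := by
  have : ({k} : Set ℕ)ᶜ ∈ UF := Filter.hyperfilter_le_cofinite (by simp)
  exact this

theorem uf_gt (k : ℕ) : ∀ᶠ m in UF, k < m := by
  have : ({m | m ≤ k} : Set ℕ)ᶜ ∈ UF :=
    Filter.hyperfilter_le_cofinite (by simpa using Set.finite_le_nat k)
  filter_upwards [this] with m hm
  simpa using hm

theorem uf_not {p : ℕ → Prop} : (¬ ∀ᶠ m in UF, p m) ↔ ∀ᶠ m in UF, ¬ p m :=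
  (Ultrafilter.eventually_not (f := Filter.hyperfilter ℕ)).symm

/-- pigeonhole along the ultrafilter -/
theorem uf_exists {ι : Type} [Finite ι] {p : ℕ → ι → Prop} (h : ∀ᶠ m in UF, ∃ i, p m i) :
    ∃ i, ∀ᶠ m in UF, p m i := by
  by_contra hno
  have h1 : ∀ i, ∀ᶠ m in UF, ¬ p m i := fun i => uf_not.1 (fun h => hno ⟨i, h⟩)
  have h2 : ∀ᶠ m in UF, ∀ i, ¬ p m i := Filter.eventually_all.2 h1
  obtain ⟨m, hm1, hm2⟩ := (h.and h2).exists
  obtain ⟨i, hi⟩ := hm1
  exact hm2 i hi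

theorem Arr.trans {D E F : ℕ → Finset V} (h : Arr M P D E) (h' : Arr M P E F) :
    Arr M P D F := by
  filter_upwards [h] with n hn T hT hTP
  obtain ⟨m, hm1, hm2⟩ := ((hn T hT hTP).and h').exists
  filter_upwards [hm2 T hT hTP] with l hl
  exact hm1.trans hl

/-- a globally defined copy map has a rooted inverse -/
theorem RE_of_image {g : V → V} {T A : Set V} (hg : PE M (T ∪ A) g) (hgT : ∀ x ∈ T, g x = x) :
    ∃ h : V → V, RM M T (g '' A) A h ∧ ∀ x ∈ A, h (g x) = x := by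
  classical
  rcases isEmpty_or_nonempty V with hV | hV
  · exact ⟨id, ⟨PE_id _, fun _ _ => rfl, fun y => hV.elim y⟩, fun x => hV.elim x⟩
  have hinj := hg.1
  set h : V → V := Function.invFunOn g (T ∪ A) with hh
  have h1 : ∀ x ∈ T ∪ A, h (g x) = x := fun x hx => hinj.leftInvOn_invFunOn hx
  refine ⟨h, ⟨⟨?_, ?_⟩, ?_, ?_⟩, fun x hx => h1 x (Or.inr hx)⟩
  · have h2 : ∀ y ∈ T ∪ g '' A, ∃ x ∈ T ∪ A, g x = y := by
      rintro y (hy | ⟨x, hx, rfl⟩)
      · exact ⟨y, Or.inl hy, hgT y hy⟩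
      · exact ⟨x, Or.inr hx, rfl⟩
    intro y hy z hz hyz
    obtain ⟨x, hx, rfl⟩ := h2 y hy
    obtain ⟨w, hw, rfl⟩ := h2 z hz
    rw [h1 x hx, h1 w hw] at hyz
    rw [hyz]
  · intro i s hs
    have h2 : ∀ j, ∃ x ∈ T ∪ A, g x = s j := by
      intro j
      rcases hs j with hy | ⟨x, hx, hxy⟩
      · exact ⟨s j, Or.inl hy, hgT _ hy⟩
      · exact ⟨x, Or.inr hx, hxy⟩
    choose u hu hus using h2
    have h3 : h ∘ s = u := by
      funext j
      rw [Function.comp_apply, ← hus j, h1 _ (hu j)]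
    have h4 : s = g ∘ u := by
      funext j
      exact (hus j).symm
    rw [h3, hg.2 i u hu, ← h4]
  · intro x hx
    have := h1 x (Or.inl hx)
    rwa [hgT x hx] at this
  · rintro y ⟨x, hx, rfl⟩
    rw [h1 x (Or.inr hx)]
    exact hx

theorem RM.comp {T A B X : Set V} {f g : V → V} (hf : RM M T A B f) (hg : RM M T B X g) :
    RM M T A X (g ∘ f) := by
  obtain ⟨hf1, hf2, hf3⟩ := hf
  obtain ⟨hg1, hg2, hg3⟩ := hg
  refine ⟨PE_comp hf1 hg1 ?_, fun x hx => ?_, fun y hy => hg3 _ (hf3 y hy)⟩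
  · intro y hy
    rcases hy with hy | hy
    · rw [hf2 y hy]; exact Or.inl hy
    · exact Or.inr (hf3 y hy)
  · rw [Function.comp_apply, hf2 x hx, hg2 x hx]

/-- a set connected over `T` is mapped into one part, if the parts are pairwise non adjacent -/
theorem conn_image {T S : Set V} (hS : Cn (Rel M δ (T ∪ S)) S) {x₀ : V} (hx₀ : x₀ ∈ S)
    {f : V → V} (hf : PE M (T ∪ S) f) {ι : Type} (X : ι → Set V)
    (hX : ∀ i j, i ≠ j → ∀ x ∈ X i, ∀ y ∈ X j, ¬ Adj M δ x y)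
    (hfX : ∀ x ∈ S, ∃ i, f x ∈ X i) : ∃ i, ∀ x ∈ S, f x ∈ X i := by
  obtain ⟨i, hi⟩ := hfX x₀ hx₀
  refine ⟨i, ?_⟩
  have h1 := hS {x | x ∈ S ∧ f x ∈ X i} (fun x hx => hx.1) ⟨x₀, hx₀, hi⟩ (by
    rintro x ⟨hx, hxi⟩ y hy hxy
    refine ⟨hy, ?_⟩
    obtain ⟨j, hj⟩ := hfX y hy
    by_cases hij : i = j
    · rw [hij]; exact hj
    · exact absurd (Rel.map hf hxy).adj (hX i j hij _ hxi _ hj))
  intro x hx
  exact (h1.symm.subset hx).2

end Pool.Agent.Lib.MP_4fb322_lc_h91x
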