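import Mathlib
import Pool.Agent.Lib.MP_4fb322_lc_h91x.XDefs
import Pool.Agent.Lib.MP_4fb322_lc_h21.W25

set_option autoImplicit false

/-!
# Row X01

(1) core2_of_core. For every `j` choose `f j` with `PE M (a j) (f j)` and `(f j '' a j \ P).ncard` minimal
(WellFounded.min / Nat.find; the identity is a candidate) and put `a' j = (a j).image (f j)`. `VE M (a j) (a' j)`
through `f j`, `VE M (a' j) (a j)` through the inverse (RE_of_image with T = ∅, or emb/indV). Hence `anti` and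
`min` pass to `a'` (VE.trans in h70 LocFin); the other fields do not mention `a`. `irr`: if `PE M (a' j) g` then
`PE M (a j) (g ∘ f j)` (PE_comp) and `(g ∘ f j) '' a j = g '' a' j`. (2) exists_core_min: same proof as W25
exists_core (copy it from the finished row W25), with the extra conclusion: the proof there shows
`ageOn M univ = ℬ` for the minimal age `ℬ` of exists_min_age.
-/

namespace Pool.Agent.Lib.MP_4fb322_lc_h91x

open Set Pool.Agent.Lib.MP_4fb322_lc_h70 Pool.Agent.Lib.MP_4fb322_lc_h91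
open Pool.Agent.Lib.MP_4fb322_lc_h21

variable {I : Type} {ar : I → ℕ} {V : Type}

theorem core2_of_core {M : (i : I) → Set (Fin (ar i) → V)} {δ : I → Prop} {t : ℕ} {P : Set V}
    {pc : V → ℕ} {a : ℕ → Finset V} (hC : Core M δ t P pc a)
    (hmin : ∀ 𝒞 : Set (Str ar), 𝒞 ⊆ ageOn M Set.univ → IsAge 𝒞 → ¬ NoAntichain 𝒞 →
      𝒞 = ageOn M Set.univ) :
    ∃ a' : ℕ → Finset V, Core2 M δ t P pc a' := by
  classical
  have hex : ∀ j, ∃ f : V → V, PE M (a j : Set V) f ∧ ∀ g : V → V, PE M (a j : Set V) g →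
      (f '' (a j : Set V) \ P).ncard ≤ (g '' (a j : Set V) \ P).ncard := by
    intro j
    have hne : ∃ n, ∃ f : V → V, PE M (a j : Set V) f ∧ (f '' (a j : Set V) \ P).ncard = n :=
      ⟨_, id, PE_id _, rfl⟩
    obtain ⟨f, hf, hn⟩ := Nat.find_spec hne
    refine ⟨f, hf, fun g hg => ?_⟩
    rw [hn]
    exact Nat.find_min' hne ⟨g, hg, rfl⟩
  choose f hf hfm using hex
  have hco : ∀ j, (((a j).image (f j) : Finset V) : Set V) = f j '' (a j : Set V) := fun j =>
    Finset.coe_image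
  have hVE1 : ∀ j, VE M (a j : Set V) (((a j).image (f j) : Finset V) : Set V) := by
    intro j
    rw [hco]
    exact ⟨f j, hf j, fun y hy => ⟨y, hy, rfl⟩⟩
  have hVE2 : ∀ j, VE M (((a j).image (f j) : Finset V) : Set V) (a j : Set V) := by
    intro j
    have h0 : PE M (∅ ∪ (a j : Set V)) (f j) := by
      rw [Set.empty_union]
      exact hf j
    obtain ⟨h, hh, -⟩ := RE_of_image h0 (fun x hx => absurd hx (Set.notMem_empty x))
    rw [hco]
    exact ⟨h, PE_mono hh.1 Set.subset_union_right, hh.2.2⟩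
  have htr : ∀ {A B C : Set V}, VE M A B → VE M B C → VE M A C := by
    rintro A B C ⟨g, hg, hgB⟩ ⟨h, hh, hhC⟩
    exact ⟨h ∘ g, PE_comp hg hh hgB, fun y hy => hhC _ (hgB y hy)⟩
  refine ⟨fun j => (a j).image (f j), ?_, hmin, ?_⟩
  · refine ⟨hC.wf, hC.sparse, hC.pin, hC.shift, hC.piece, hC.piece_fin, ?_, ?_⟩
    · intro i j hij h
      exact hC.anti i j hij (htr (htr (hVE1 i) h) (hVE2 j))
    · intro X hX Y hY
      refine hC.min X (fun n => ?_) Y hY
      obtain ⟨j, hj, h⟩ := hX n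
      exact ⟨j, hj, htr (hVE1 j) h⟩
  · intro j g hg
    simp only [hco] at hg ⊢
    have h1 := hfm j (g ∘ f j) (PE_comp (hf j) hg fun y hy => ⟨y, hy, rfl⟩)
    rwa [Set.image_comp] at h1

theorem exists_core_min [Finite I] {δ : I → Prop} {t : ℕ} {𝒜 : Set (Str ar)} (h𝒜 : IsAge 𝒜)
    (hK : ∀ C ∈ 𝒜, ¬ HasBiclique C.2 δ t) (hwf : SubagesWF 𝒜) (hna : ¬ NoAntichain 𝒜) :
    ∃ (V : Type) (M : (i : I) → Set (Fin (ar i) → V)) (P : Set V) (pc : V → ℕ)
      (a : ℕ → Finset V), Core M δ t P pc a ∧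
      ∀ 𝒞 : Set (Str ar), 𝒞 ⊆ ageOn M Set.univ → IsAge 𝒞 → ¬ NoAntichain 𝒞 →
        𝒞 = ageOn M Set.univ := by
  classical
  obtain ⟨ℬ, hℬ𝒜, hℬ, hℬna, hmin⟩ := exists_min_age h𝒜 hwf hna
  obtain ⟨M₀, X₀, hM₀, hKM⟩ := exists_sparse_model (δ := δ) (t := t) hℬ
    (fun C hC => hK C (hℬ𝒜 hC))
  obtain ⟨s, hs, hanti⟩ := not_not.1 hℬna
  obtain ⟨Y, P, hYQ, hYanti, hPY, hnP, hPQ⟩ := fusion (fun Y => ageOn M₀ Y = ℬ) hM₀
  have hχ : ∀ j k, ∃ f : Fin (s j).1 → ℕ, Function.Injective f ∧ (∀ x, f x ∈ Y k) ∧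
      ∀ (i : I) (t : Fin (ar i) → Fin (s j).1), t ∈ (s j).2 i ↔ f ∘ t ∈ M₀ i := by
    intro j k
    have : s j ∈ ageOn M₀ (Y k) := by
      rw [hYQ k]
      exact hs j
    exact this
  choose χ hχi hχY hχr using hχ
  set U : Ultrafilter ℕ := Filter.hyperfilter ℕ with hUdef
  have hU : (U : Filter ℕ) ≤ Filter.cofinite := Filter.hyperfilter_le_cofinite
  have hUgt : ∀ n : ℕ, ∀ᶠ k in (U : Filter ℕ), n < k := by
    intro n
    apply hU
    rw [Filter.mem_cofinite]
    refine (Set.finite_Iic n).subset ?_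
    intro k hk
    simpa using hk
  let E : ℕ → Type := fun j => {v : Fin (s j).1 // ¬ ∃ p, ∀ᶠ k in (U : Filter ℕ), χ j k v = p}
  have hEfin : ∀ j, Finite (E j) := fun j => inferInstanceAs (Finite {v : Fin (s j).1 // _})
  let ψ : (j : ℕ) → ℕ → E j → ℕ := fun j k e => χ j k e.1
  have hinj : ∀ j k, Function.Injective (ψ j k) := fun j k e e' h =>
    Subtype.ext (hχi j k h)
  have hinf : ∀ j e x, ∀ᶠ k in (U : Filter ℕ), ψ j k e ≠ x := by
    intro j e x
    have h1 : ¬ ∀ᶠ k in (U : Filter ℕ), ψ j k e = x := fun h => e.2 ⟨x, h⟩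
    exact Ultrafilter.eventually_not.2 h1
  let M : (i : I) → Set (Fin (ar i) → LV P E) := LM M₀ δ U ψ
  -- realisation of members of the age
  have hreal : ∀ (G : Str ar) (f : Fin G.1 → LV P E), Function.Injective f →
      (∀ (i : I) (t : Fin (ar i) → Fin G.1), t ∈ G.2 i ↔ f ∘ t ∈ M i) →
      ∀ (K : ℕ) (B : Set ℕ), B.Finite → (∀ x, ∀ q : P, f x = Sum.inl q → q.1 ∉ B) →
      G ∈ ageOn M₀ (Y K \ B) := by
    intro G f hf hr K B hB hq
    obtain ⟨h, h1, h2, h3, h4⟩ := LM_realize hKM U hU ψ hinj hinf Y hYanti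
      (fun j k e => hχY j k e.1) (Finset.univ.image f) K B hB
    have hmem : ∀ x, f x ∈ Finset.univ.image f := fun x =>
      Finset.mem_image_of_mem f (Finset.mem_univ x)
    refine ⟨h ∘ f, ?_, ?_, ?_⟩
    · intro x y hxy
      exact hf (h1 (Finset.mem_coe.2 (hmem x)) (Finset.mem_coe.2 (hmem y)) hxy)
    · intro x
      rcases hfx : f x with q | y
      · rw [Function.comp_apply, hfx, h3 q]
        exact ⟨hPY K q.2, hq x q hfx⟩
      · have h5 := h4 y (by rw [← hfx]; exact hmem x)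
        rw [Function.comp_apply, hfx]
        exact h5
    · intro i t
      rw [hr i t]
      exact h2 i (f ∘ t) (fun l => hmem (t l))
  have hsub : ageOn M Set.univ ⊆ ℬ := by
    rintro G ⟨f, hf, -, hr⟩
    have := hreal G f hf hr 0 ∅ Set.finite_empty (fun _ _ _ => Set.notMem_empty _)
    rw [Set.sdiff_empty, hYQ 0] at this
    exact this
  -- copies of the antichain
  have hpinval : ∀ j (v : Fin (s j).1) p, (∀ᶠ k in (U : Filter ℕ), χ j k v = p) → p ∈ P := by
    intro j v p h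
    by_contra hp
    obtain ⟨k, hk1, hk2⟩ := (h.and (hUgt p)).exists
    exact hnP p hp k hk2 (hk1 ▸ hχY j k v)
  let c : (j : ℕ) → Fin (s j).1 → LV P E := fun j v =>
    if h : ∃ p, ∀ᶠ k in (U : Filter ℕ), χ j k v = p then
      Sum.inl ⟨h.choose, hpinval j v _ h.choose_spec⟩
    else Sum.inr ⟨j, 0, ⟨v, h⟩⟩
  have hc : ∀ j v, (∃ p, c j v = Sum.inl p) ∨ ∃ e, c j v = Sum.inr ⟨j, 0, e⟩ := by
    intro j v
    by_cases h : ∃ p, ∀ᶠ k in (U : Filter ℕ), χ j k v = p
    · left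
      exact ⟨_, dif_pos h⟩
    · right
      exact ⟨_, dif_neg h⟩
  have hcr : ∀ j v, ∀ᶠ k in (U : Filter ℕ), real ψ k (c j v) = χ j k v := by
    intro j v
    by_cases h : ∃ p, ∀ᶠ k in (U : Filter ℕ), χ j k v = p
    · have h1 : c j v = Sum.inl ⟨h.choose, hpinval j v _ h.choose_spec⟩ := dif_pos h
      rw [h1]
      filter_upwards [h.choose_spec] with k hk
      exact hk.symm
    · have h1 : c j v = Sum.inr ⟨j, 0, ⟨v, h⟩⟩ := dif_neg h
      rw [h1]
      exact Filter.Eventually.of_forall fun k => rfl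
  have hcopy := fun j => LM_copy (M₀ := M₀) (δ := δ) U ψ j (s j) (χ j) (hχi j) (hχr j)
    (c j) (hc j) (hcr j)
  let a : ℕ → Finset (LV P E) := fun j => Finset.univ.image (c j)
  have hE1 : ∀ j, Emb (s j) (indV M (a j)) := fun j =>
    emb_indV M (hcopy j).1 (fun x => Finset.mem_image_of_mem (c j) (Finset.mem_univ x))
      (hcopy j).2
  have hE2 : ∀ j, Emb (indV M (a j)) (s j) := by
    intro j
    apply (hE1 j).symm_of_size
    change (s j).1 = (Finset.univ.image (c j)).card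
    rw [Finset.card_image_of_injective _ (hcopy j).1]
    simp
  have hanti' : ∀ i j, i ≠ j → ¬ VE M (a i : Set (LV P E)) (a j : Set (LV P E)) := by
    intro i j hij h
    exact hanti i j hij (((hE1 i).trans (emb_of_VE M h)).trans (hE2 j))
  have hminV : ∀ X : Set (LV P E), (∀ n, ∃ j, n ≤ j ∧ VE M (a j : Set (LV P E)) X) →
      ageOn M X = ℬ := by
    intro X hX
    apply hmin _ ((ageOn_mono M (Set.subset_univ X)).trans hsub) (ageOn_isAge M X)
    intro hno
    choose J hJ1 hJ2 using hX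
    -- a strictly increasing sequence of indices
    let w : ℕ → ℕ := fun n => Nat.rec (J 0) (fun _ m => J (m + 1)) n
    have hw : StrictMono w := by
      apply strictMono_nat_of_lt_succ
      intro n
      exact Nat.lt_of_succ_le (hJ1 (w n + 1))
    have hwX : ∀ n, VE M (a (w n) : Set (LV P E)) X := by
      intro n
      cases n with
      | zero => exact hJ2 0
      | succ n => exact hJ2 (w n + 1)
    apply hno
    refine ⟨fun n => indV M (a (w n)), fun n => indV_mem_ageOn M (hwX n), ?_⟩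
    intro m k hmk h
    exact hanti' _ _ (fun e => hmk (hw.injective e)) (VE_of_emb h)
  have hfull : ageOn M Set.univ = ℬ := hminV _ fun n =>
    ⟨n, le_rfl, id, PE_id _, fun _ _ => Set.mem_univ _⟩
  refine ⟨LV P E, M, Set.range Sum.inl,
    Sum.elim (fun _ => 0) (fun x => Nat.pair x.1 x.2.1), a, ?_, ?_⟩
  swap
  · intro 𝒞 h1 h2 h3
    rw [hfull]
    exact hmin 𝒞 (h1.trans hsub) h2 h3
  refine ⟨hwf.mono (hsub.trans hℬ𝒜), ?_, ?_, ?_, ?_, ?_, hanti', ?_⟩
  · -- sparse
    exact noBiclique_lift (X := Set.univ) (fun C hC => hK C (hℬ𝒜 (hsub hC)))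
      (fun i s h => absurd (fun l => Set.mem_univ _) h)
  · -- pins
    rintro _ ⟨q, rfl⟩
    have h1 : ageOn M₀ (Y q.1 \ {q.1}) ⊆ ℬ := by
      rw [← hYQ q.1]
      exact ageOn_mono M₀ Set.sdiff_subset
    obtain ⟨G, hG, hG2⟩ : ∃ G ∈ ℬ, G ∉ ageOn M₀ (Y q.1 \ {q.1}) := by
      by_contra hno
      push Not at hno
      exact hPQ q.1 q.2 (Set.Subset.antisymm h1 hno)
    rw [← hfull] at hG
    obtain ⟨Z, -, hZ1, -⟩ := exists_indV_of_mem M hG
    refine ⟨(Z : Set (LV P E)), Finset.finite_toSet Z, fun hVE => hG2 ?_⟩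
    have h2 : G ∈ ageOn M {(Sum.inl q : LV P E)}ᶜ :=
      (ageOn_isAge M _).2.1 _ _ (indV_mem_ageOn M hVE) hZ1
    obtain ⟨f, hf, hfX, hr⟩ := h2
    refine hreal G f hf hr q.1 {q.1} (Set.finite_singleton _) ?_
    intro x q' hx hq'
    apply hfX x
    rw [hx, Set.mem_singleton_iff]
    exact congrArg Sum.inl (Subtype.ext hq')
  · -- shift
    intro X hX
    obtain ⟨f, hf, hfp, hfx⟩ := LM_shift (M₀ := M₀) (δ := δ) U ψ X hX
    refine ⟨f, hf, ?_, ?_⟩
    · rintro _ ⟨q, rfl⟩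
      exact hfp q
    · intro x hx
      rcases x with q | y
      · exact absurd ⟨q, rfl⟩ hx
      · obtain ⟨⟨z, hz⟩, h2⟩ := hfx y
        refine ⟨?_, h2⟩
        rintro ⟨q, hq⟩
        rw [hz] at hq
        exact Sum.inl_ne_inr hq
  · -- pieces
    intro x hx y hy h
    rcases x with q | x
    · exact absurd ⟨q, rfl⟩ hx
    rcases y with q | y
    · exact absurd ⟨q, rfl⟩ hy
    obtain ⟨h1, h2⟩ := LM_piece U ψ x y h
    exact congrArg₂ Nat.pair h1 h2
  · -- finiteness of the pieces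
    intro n
    have hfin : (Set.range fun e : E (Nat.unpair n).1 =>
        (Sum.inr ⟨(Nat.unpair n).1, (Nat.unpair n).2, e⟩ : LV P E)).Finite :=
      Set.finite_range _
    refine hfin.subset ?_
    rintro x ⟨hx, hxn⟩
    rcases x with q | ⟨j, m, e⟩
    · exact absurd ⟨q, rfl⟩ hx
    · change Nat.pair j m = n at hxn
      subst hxn
      simp only [Set.mem_range]
      rw [Nat.unpair_pair]
      exact ⟨e, rfl⟩
  · -- min
    intro X hX Z hZ
    have h1 := hminV X hX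
    rw [← hfull] at h1
    exact ageOn_subset_iff.1 h1.symm.subset Z hZ ⟨id, PE_id _, fun _ _ => Set.mem_univ _⟩

end Pool.Agent.Lib.MP_4fb322_lc_h91x
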