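import Mathlib
import Pool.Agent.Lib.MP_4fb322_lc_h91x.XDefs

set_option autoImplicit false

/-!
# Row X02

Minimality for sequences of sets. PROOF. Let `𝒞 = {A : Str ar | ∀ᶠ m in UF, A ∈ ageOn M (N m)}`. It is an age:
nonempty (a finite structure of size 0: `indV M ∅`), closed downwards (ageOn_isAge), directed: if `A, B ∈ 𝒞` then for
almost all `m` there is `C m ∈ ageOn M (N m)` with `Emb A (C m)`, `Emb B (C m)`, and size at most `A.1 + B.1`
(take `indV M (image f ∪ image g)`, as in the proof of ageOn_isAge); there are finitely many `Str ar` of size at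
most `A.1 + B.1` (Finite I), so by `uf_exists` (ι = the finite subtype) one `C` works for almost all `m`. `𝒞 ⊆ ageOn M
univ` by monotonicity (some `m` exists: Filter.Eventually.exists). `¬ NoAntichain 𝒞`: the `indV M (a j)`, `j ∈ Ω`,
enumerated by `Nat.orderEmbeddingOfSet Ω` or Nat.nth (Ω infinite), lie in `𝒞` (indV_mem_ageOn) and `hC.core.anti`,
`VE_of_emb`. So `𝒞 = ageOn M univ` by `hC.minAge`; for finite `Y`, `indV M Y ∈ ageOn M univ = 𝒞`, and VE_of_indV.
(About 100 lines.)
-/

namespace Pool.Agent.Lib.MP_4fb322_lc_h91x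

open Set Pool.Agent.Lib.MP_4fb322_lc_h70 Pool.Agent.Lib.MP_4fb322_lc_h91
open Pool.Agent.Lib.MP_4fb322_lc_h21

variable {I : Type} {ar : I → ℕ} {V : Type}

theorem min_seq [Finite I] {M : (i : I) → Set (Fin (ar i) → V)} {δ : I → Prop} {t : ℕ}
    {P : Set V} {pc : V → ℕ} {a : ℕ → Finset V} (hC : Core2 M δ t P pc a) (N : ℕ → Set V)
    (Ω : Set ℕ) (hΩ : Ω.Infinite) (h : ∀ j ∈ Ω, ∀ᶠ m in UF, VE M (a j : Set V) (N m))
    (Y : Set V) (hY : Y.Finite) : ∀ᶠ m in UF, VE M Y (N m) := by
  classical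
  set 𝒞 : Set (Str ar) := {A | ∀ᶠ m in UF, A ∈ ageOn M (N m)} with h𝒞
  have hage : IsAge 𝒞 := by
    refine ⟨⟨indV M ∅, ?_⟩, ?_, ?_⟩
    · refine Filter.Eventually.of_forall (fun m => ?_)
      exact indV_mem_ageOn M ⟨id, ⟨fun x hx => by simp at hx, fun i t _ => Iff.rfl⟩,
        fun y hy => by simp at hy⟩
    · intro A B hB hAB
      have hB' : ∀ᶠ m in UF, B ∈ ageOn M (N m) := hB
      change ∀ᶠ m in UF, A ∈ ageOn M (N m)
      filter_upwards [hB'] with m hm
      exact (ageOn_isAge M (N m)).2.1 A B hm hAB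
    · intro A hA B hB
      have hA' : ∀ᶠ m in UF, A ∈ ageOn M (N m) := hA
      have hB' : ∀ᶠ m in UF, B ∈ ageOn M (N m) := hB
      have key : ∀ᶠ m in UF, ∃ c : (Σ k : Fin (A.1 + B.1 + 1),
          (i : I) → Set (Fin (ar i) → Fin k.1)),
          (⟨c.1.1, c.2⟩ : Str ar) ∈ ageOn M (N m) ∧ Emb A (⟨c.1.1, c.2⟩ : Str ar) ∧
            Emb B (⟨c.1.1, c.2⟩ : Str ar) := by
        filter_upwards [hA', hB'] with m hAm hBm
        obtain ⟨f, hf, hX, hr⟩ := hAm
        obtain ⟨g, hg, hXg, hrg⟩ := hBm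
        have hcard : (indV M (Finset.univ.image f ∪ Finset.univ.image g)).1 < A.1 + B.1 + 1 := by
          change (Finset.univ.image f ∪ Finset.univ.image g).card < A.1 + B.1 + 1
          have h1 := Finset.card_union_le (Finset.univ.image f) (Finset.univ.image g)
          have h2 : (Finset.univ.image f).card ≤ A.1 := by
            refine Finset.card_image_le.trans ?_
            simp
          have h3 : (Finset.univ.image g).card ≤ B.1 := by
            refine Finset.card_image_le.trans ?_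
            simp
          omega
        refine ⟨⟨⟨(indV M (Finset.univ.image f ∪ Finset.univ.image g)).1, hcard⟩,
          (indV M (Finset.univ.image f ∪ Finset.univ.image g)).2⟩, ?_, ?_, ?_⟩
        · change indV M (Finset.univ.image f ∪ Finset.univ.image g) ∈ ageOn M (N m)
          apply indV_mem_ageOn
          refine ⟨id, ⟨fun x _ y _ h => h, fun i t _ => Iff.rfl⟩, ?_⟩
          intro y hy
          rcases Finset.mem_union.1 (Finset.mem_coe.1 hy) with hy | hy
          · obtain ⟨x, _, rfl⟩ := Finset.mem_image.1 hy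
            exact hX x
          · obtain ⟨x, _, rfl⟩ := Finset.mem_image.1 hy
            exact hXg x
        · change Emb A (indV M (Finset.univ.image f ∪ Finset.univ.image g))
          exact emb_indV M hf (fun x => Finset.mem_union_left _
            (Finset.mem_image_of_mem f (Finset.mem_univ x))) hr
        · change Emb B (indV M (Finset.univ.image f ∪ Finset.univ.image g))
          exact emb_indV M hg (fun x => Finset.mem_union_right _
            (Finset.mem_image_of_mem g (Finset.mem_univ x))) hrg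
      obtain ⟨c, hc⟩ := uf_exists key
      refine ⟨⟨c.1.1, c.2⟩, ?_, ?_, ?_⟩
      · change ∀ᶠ m in UF, (⟨c.1.1, c.2⟩ : Str ar) ∈ ageOn M (N m)
        filter_upwards [hc] with m hm
        exact hm.1
      · obtain ⟨m, hm⟩ := hc.exists
        exact hm.2.1
      · obtain ⟨m, hm⟩ := hc.exists
        exact hm.2.2
  have hsub : 𝒞 ⊆ ageOn M Set.univ := by
    intro A hA
    have hA' : ∀ᶠ m in UF, A ∈ ageOn M (N m) := hA
    obtain ⟨m, hm⟩ := hA'.exists
    exact ageOn_mono M (Set.subset_univ _) hm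
  have hanti : ¬ NoAntichain 𝒞 := by
    intro hno
    let e : ℕ ↪ Ω := hΩ.natEmbedding Ω
    have he : ∀ k, (e k : ℕ) ∈ Ω := fun k => (e k).2
    apply hno
    refine ⟨fun k => indV M (a (e k : ℕ)), fun k => ?_, fun m k hmk hemb => ?_⟩
    · change ∀ᶠ m in UF, indV M (a (e k : ℕ)) ∈ ageOn M (N m)
      filter_upwards [h (e k : ℕ) (he k)] with m hm
      exact indV_mem_ageOn M hm
    · exact hC.core.anti (e m : ℕ) (e k : ℕ)
        (fun h' => hmk (e.injective (Subtype.ext h'))) (VE_of_emb hemb)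
  have heq : 𝒞 = ageOn M Set.univ := hC.minAge 𝒞 hsub hage hanti
  have hYm : indV M hY.toFinset ∈ 𝒞 := by
    rw [heq]
    apply indV_mem_ageOn
    exact ⟨id, ⟨fun x _ y _ h => h, fun i t _ => Iff.rfl⟩, fun y _ => Set.mem_univ _⟩
  have hYm' : ∀ᶠ m in UF, indV M hY.toFinset ∈ ageOn M (N m) := hYm
  filter_upwards [hYm'] with m hm
  have h2 := VE_of_indV M hm
  rwa [Set.Finite.coe_toFinset] at h2

end Pool.Agent.Lib.MP_4fb322_lc_h91x
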