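import Mathlib
import Pool.Agent.Lib.MP_4fb322_lc_h91x.XDefs
import Pool.Agent.Lib.MP_4fb322_lc_h21.W01

set_option autoImplicit false

/-!
# Row X03

Rooted fullness. PROOF of rooted_full. Suppose not; by `uf_not` the set `Ω` of the `m` with `¬ RE M T Y (N m)` is in
the ultrafilter. Let `Z 0 = Y ∪ F`; given the finite set `Z n ⊇ Y ∪ F` choose `m n ∈ Ω` and `f n` with `PE M (Z n) (f n)` and
`f n '' Z n ⊆ N (m n)` (hN for `Z n`, intersected with Ω, is nonempty), and `Z (n+1) = Z n ∪ f n '' Z n`. By hrec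
`f n '' T = T`. Let `g 0 = id`, `g (n+1) = f n ∘ g n`. All `g n` map `T` into `T` injectively; by pigeonhole (finitely many
maps `T → T`) `g k = g n` on `T` for some `k < n`. Let `h = f (n-1) ∘ ... ∘ f k`: an embedding of `Z k`, it maps
`Z k ⊇ T ∪ Y` into `N (m (n-1))`, and it is the identity on `T` (`h ∘ g k = g n = g k` on `T` and `g k '' T = T`). So
RE M T Y (N (m (n-1))), contradiction with `m (n-1) ∈ Ω`. (Same argument as row W02.) rooted_full_pins: `recog` (W01)
gives `T' ⊇ T` and `F` (hnon: for `x ∉ P` the map of `Core.shift {x}` embeds everything into `{x}ᶜ`); then RE.root.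
(About 120 lines.)
-/

namespace Pool.Agent.Lib.MP_4fb322_lc_h91x

open Set Pool.Agent.Lib.MP_4fb322_lc_h70 Pool.Agent.Lib.MP_4fb322_lc_h91
open Pool.Agent.Lib.MP_4fb322_lc_h21

variable {I : Type} {ar : I → ℕ} {V : Type}

theorem rooted_full {M : (i : I) → Set (Fin (ar i) → V)} (N : ℕ → Set V)
    (hN : ∀ Y : Set V, Y.Finite → ∀ᶠ m in UF, VE M Y (N m)) {T F : Set V} (hT : T.Finite)
    (hTF : T ⊆ F) (hF : F.Finite) (hrec : ∀ f : V → V, PE M F f → f '' T = T) (Y : Set V)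
    (hY : Y.Finite) : ∀ᶠ m in UF, RE M T Y (N m) := by
  classical
  by_contra hno
  have hΩ : ∀ᶠ m in UF, ¬ RE M T Y (N m) := uf_not.1 hno
  -- one step
  have step : ∀ Z : Set V, ∃ (m : ℕ) (f : V → V), Z.Finite →
      (¬ RE M T Y (N m) ∧ PE M Z f ∧ ∀ y ∈ Z, f y ∈ N m) := by
    intro Z
    by_cases hZ : Z.Finite
    · obtain ⟨m, ⟨f, hf, hfN⟩, hm⟩ := ((hN Z hZ).and hΩ).exists
      exact ⟨m, f, fun _ => ⟨hm, hf, hfN⟩⟩
    · exact ⟨0, id, fun h => absurd h hZ⟩
  choose μ φ hφ using step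
  -- the sets
  let Z : ℕ → Set V := fun n => Nat.rec (Y ∪ F) (fun _ W => W ∪ φ W '' W) n
  have hZ0 : Z 0 = Y ∪ F := rfl
  have hZs : ∀ n, Z (n + 1) = Z n ∪ φ (Z n) '' Z n := fun n => rfl
  have hgood : ∀ n, (Z n).Finite ∧ F ⊆ Z n ∧ Y ⊆ Z n := by
    intro n
    induction n with
    | zero =>
      rw [hZ0]
      exact ⟨hY.union hF, Set.subset_union_right, Set.subset_union_left⟩
    | succ n ih =>
      rw [hZs]
      obtain ⟨h1, h2, h3⟩ := ih
      exact ⟨h1.union (h1.image _), h2.trans Set.subset_union_left,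
        h3.trans Set.subset_union_left⟩
  have hstepT : ∀ n, φ (Z n) '' T = T := fun n =>
    hrec _ (PE_mono (hφ (Z n) (hgood n).1).2.1 (hgood n).2.1)
  -- the compositions
  let H : ℕ → ℕ → V → V := fun m j => Nat.rec id (fun i g => φ (Z (m + i)) ∘ g) j
  have hH0 : ∀ m, H m 0 = id := fun m => rfl
  have hHs : ∀ m j, H m (j + 1) = φ (Z (m + j)) ∘ H m j := fun m j => rfl
  have hHZ : ∀ m j, ∀ y ∈ Z m, H m j y ∈ Z (m + j) := by
    intro m j
    induction j with
    | zero => exact fun y hy => hy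
    | succ j ih =>
      intro y hy
      have : m + (j + 1) = (m + j) + 1 := by omega
      rw [this, hZs, hHs]
      exact Or.inr ⟨H m j y, ih y hy, rfl⟩
  have hHT : ∀ m j, H m j '' T = T := by
    intro m j
    induction j with
    | zero => rw [hH0, Set.image_id]
    | succ j ih => rw [hHs, Set.image_comp, ih, hstepT]
  have hHP : ∀ m j, PE M (Z m) (H m j) := by
    intro m j
    induction j with
    | zero => exact PE_id _
    | succ j ih =>
      rw [hHs]
      exact PE_comp ih (hφ _ (hgood (m + j)).1).2.1 (hHZ m j)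
  have hHc : ∀ m j, H 0 (m + j) = H m j ∘ H 0 m := by
    intro m j
    induction j with
    | zero => rfl
    | succ j ih =>
      have : m + (j + 1) = (m + j) + 1 := by omega
      rw [this, hHs, ih, hHs]
      have h0 : 0 + (m + j) = m + j := by omega
      rw [h0]
      rfl
  -- pigeonhole
  have hfin : Finite T := hT.to_subtype
  let G : ℕ → (T → T) := fun n x => ⟨H 0 n x, by
    have := hHT 0 n
    have h2 : H 0 n x ∈ H 0 n '' T := ⟨x, x.2, rfl⟩
    rwa [this] at h2⟩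
  have hp : ∃ m j, ∀ x ∈ T, H 0 (m + (j + 1)) x = H 0 m x := by
    obtain ⟨m, n, hmn, hG⟩ := Finite.exists_ne_map_eq_of_infinite G
    have hG' : ∀ x ∈ T, H 0 m x = H 0 n x := by
      intro x hx
      have := congrFun hG ⟨x, hx⟩
      exact congrArg Subtype.val this
    rcases lt_or_gt_of_ne hmn with h | h
    · obtain ⟨j, rfl⟩ : ∃ j, n = m + (j + 1) := ⟨n - m - 1, by omega⟩
      exact ⟨m, j, fun x hx => (hG' x hx).symm⟩
    · obtain ⟨j, rfl⟩ : ∃ j, m = n + (j + 1) := ⟨m - n - 1, by omega⟩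
      exact ⟨n, j, fun x hx => hG' x hx⟩
  obtain ⟨m, j, hmj⟩ := hp
  refine (hφ (Z (m + j)) (hgood (m + j)).1).1 ⟨H m (j + 1), PE_mono (hHP m (j + 1))
    (Set.union_subset (hTF.trans (hgood m).2.1) (hgood m).2.2), ?_, ?_⟩
  · intro x hx
    have hx' : x ∈ H 0 m '' T := by
      rw [hHT]
      exact hx
    obtain ⟨y, hy, rfl⟩ := hx'
    have h1 := hmj y hy
    rw [hHc] at h1
    exact h1
  · intro y hy
    rw [hHs]
    exact (hφ _ (hgood (m + j)).1).2.2 _ (hHZ m j y ((hgood m).2.2 hy))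

theorem rooted_full_pins {M : (i : I) → Set (Fin (ar i) → V)} {δ : I → Prop} {t : ℕ}
    {P : Set V} {pc : V → ℕ} {a : ℕ → Finset V} (hC : Core M δ t P pc a) (N : ℕ → Set V)
    (hN : ∀ Y : Set V, Y.Finite → ∀ᶠ m in UF, VE M Y (N m)) {T : Set V} (hT : T.Finite)
    (hTP : T ⊆ P) (Y : Set V) (hY : Y.Finite) : ∀ᶠ m in UF, RE M T Y (N m) := by
  have hnon : ∀ x, x ∉ P → ∀ Y : Set V, Y.Finite → VE M Y {x}ᶜ := by
    intro x hx Y _
    obtain ⟨f, hf, hfP, hfx⟩ := hC.shift {x} (Set.finite_singleton x)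
    refine ⟨f, PE_mono hf (Set.subset_univ _), fun y _ => ?_⟩
    by_cases hy : y ∈ P
    · rw [hfP y hy]
      rintro rfl
      exact hx hy
    · exact (hfx y hy).2
  obtain ⟨T', F, hT', hF, h1, -, h3, hrec⟩ := recog hC.pin hnon hT hTP
  filter_upwards [rooted_full N hN hT' h3 hF hrec Y hY] with m hm
  exact RE.root hm h1

end Pool.Agent.Lib.MP_4fb322_lc_h91x
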