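import Mathlib
import Pool.Agent.Lib.MP_4fb322_lc_h91x.XDefs
import Pool.Agent.Lib.MP_4fb322_lc_h21.W01
import Pool.Agent.Lib.MP_4fb322_lc_h21.W18

set_option autoImplicit false

/-!
# Row X04

Rooted wqo for arbitrary finite `T ⊆ P`, and along the ultrafilter. PROOF. wqo_pins: `recog` (W01, hnon through
Core.shift) gives `T' ⊇ T`, `F`; `rooted_wqo` (W18) for `T'`; RE.root. wqo_uf: otherwise (uf_not) the set
`Ω = {n | ∀ᶠ m in UF, ¬ RE M T (Z n) (Z m)}` is in the ultrafilter. `exists_seq_of_forall_finset_exists` with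
`P n := n ∈ Ω` and `r n m := ¬ RE M T (Z n) (Z m)` (for a finite set of `n ∈ Ω` almost all `m` are in Ω and satisfy
all the conditions: Filter.eventually_all_finset) gives a sequence contradicting wqo_pins. (About 60 lines.)
-/

namespace Pool.Agent.Lib.MP_4fb322_lc_h91x

open Set Pool.Agent.Lib.MP_4fb322_lc_h70 Pool.Agent.Lib.MP_4fb322_lc_h91
open Pool.Agent.Lib.MP_4fb322_lc_h21

variable {I : Type} {ar : I → ℕ} {V : Type}

theorem wqo_pins {M : (i : I) → Set (Fin (ar i) → V)} {δ : I → Prop} {t : ℕ} {P : Set V}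
    {pc : V → ℕ} {a : ℕ → Finset V} (hC : Core M δ t P pc a) {T : Set V} (hT : T.Finite)
    (hTP : T ⊆ P) (Z : ℕ → Finset V) (hZ : ∀ n, (Z n : Set V) ⊆ Pᶜ) :
    ∃ i j, i < j ∧ RE M T (Z i : Set V) (Z j : Set V) := by
  have hnon : ∀ x, x ∉ P → ∀ Y : Set V, Y.Finite → VE M Y {x}ᶜ := by
    intro x hx Y _
    obtain ⟨f, hf, hfP, hfX⟩ := hC.shift {x} (Set.finite_singleton x)
    refine ⟨f, PE_mono hf (Set.subset_univ _), fun y _ => ?_⟩
    by_cases hy : y ∈ P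
    · rw [hfP y hy]
      intro h
      rw [Set.mem_singleton_iff] at h
      exact hx (h ▸ hy)
    · exact (hfX y hy).2
  obtain ⟨T', F, hT', hF, hTT', hT'P, hT'F, hrec⟩ := recog hC.pin hnon hT hTP
  obtain ⟨i, j, hij, h⟩ := rooted_wqo hC hT' hT'F hF hT'P hrec Z hZ
  exact ⟨i, j, hij, RE.root h hTT'⟩

theorem wqo_uf {M : (i : I) → Set (Fin (ar i) → V)} {δ : I → Prop} {t : ℕ} {P : Set V}
    {pc : V → ℕ} {a : ℕ → Finset V} (hC : Core M δ t P pc a) {T : Set V} (hT : T.Finite)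
    (hTP : T ⊆ P) (Z : ℕ → Finset V) (hZ : ∀ n, (Z n : Set V) ⊆ Pᶜ) :
    ∀ᶠ n in UF, ∀ᶠ m in UF, RE M T (Z n : Set V) (Z m : Set V) := by
  by_contra hno
  have h1 : ∀ᶠ n in UF, ∀ᶠ m in UF, ¬ RE M T (Z n : Set V) (Z m : Set V) :=
    (uf_not.1 hno).mono fun n hn => uf_not.1 hn
  obtain ⟨g, hg1, hg2⟩ := exists_seq_of_forall_finset_exists
    (fun n => ∀ᶠ m in UF, ¬ RE M T (Z n : Set V) (Z m : Set V))
    (fun n m => ¬ RE M T (Z n : Set V) (Z m : Set V)) (fun s hs => by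
      have h2 : ∀ᶠ m in UF, ∀ n ∈ s, ¬ RE M T (Z n : Set V) (Z m : Set V) :=
        (Filter.eventually_all_finset s).2 hs
      obtain ⟨m, hm1, hm2⟩ := (h1.and h2).exists
      exact ⟨m, hm1, hm2⟩)
  obtain ⟨i, j, hij, h⟩ := wqo_pins hC hT hTP (fun n => Z (g n)) (fun n => hZ _)
  exact hg2 i j hij h

end Pool.Agent.Lib.MP_4fb322_lc_h91x
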