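import Mathlib
import Pool.Agent.Lib.MP_4fb322_lc_h91x.XDefs

set_option autoImplicit false

/-!
# Row X05

Pairwise non adjacent copies. PROOF. First for `ι = ℕ`: choose recursively `g n` from `Core.shift` applied to the
finite set `E n` of all points `y ∉ P` whose piece number `pc y` occurs among the points of
`⋃ k < n, g k '' X k` outside `P`, together with `B` (finite by `piece_fin`). For `k < n`, `x ∈ X k`, `y ∈ X n`:
`g n y ∉ P` is outside `E n`, so `pc (g n y) ≠ pc (g k x)`; hence `g k x ≠ g n y` and not adjacent (`Core.piece`).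
Recursion: as a strong recursion on the finite set used so far (e.g. Nat.rec on pairs (finite set, map)), or
`exists_seq_of_forall_finset_exists` applied to pairs (n, map) is awkward; simplest: `choose s hs using` shift, define
`E : ℕ → Set V × ...` by Nat.rec. General countable `ι`: `Countable ι` gives an injection `e : ι → ℕ`
(exists_injective_nat); apply the case ℕ to `X' n = X i` if `n = e i` for some `i`, `∅` otherwise, and `g i = g' (e i)`.
(About 100 lines.)
-/

namespace Pool.Agent.Lib.MP_4fb322_lc_h91x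

open Set Pool.Agent.Lib.MP_4fb322_lc_h70 Pool.Agent.Lib.MP_4fb322_lc_h91
open Pool.Agent.Lib.MP_4fb322_lc_h21

variable {I : Type} {ar : I → ℕ} {V : Type}

/-- the case of a sequence -/
private theorem x05_nat {M : (i : I) → Set (Fin (ar i) → V)} {δ : I → Prop} {t : ℕ}
    {P : Set V} {pc : V → ℕ} {a : ℕ → Finset V} (hC : Core M δ t P pc a)
    (X : ℕ → Finset V) (hX : ∀ i, (X i : Set V) ⊆ Pᶜ) (B : Set V) (hB : B.Finite) :
    ∃ g : ℕ → V → V, (∀ i, PE M Set.univ (g i)) ∧ (∀ i, ∀ p ∈ P, g i p = p) ∧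
      (∀ i, ∀ x, x ∉ P → g i x ∉ P ∧ g i x ∉ B) ∧
      ∀ i k, i < k → ∀ x ∈ X i, ∀ y ∈ X k, g i x ≠ g k y ∧ ¬ Adj M δ (g i x) (g k y) := by
  classical
  have hsh : ∀ F : Finset V, ∃ f : V → V, PE M Set.univ f ∧ (∀ p ∈ P, f p = p) ∧
      ∀ x, x ∉ P → f x ∉ P ∧ f x ∉ F := by
    intro F
    obtain ⟨f, h1, h2, h3⟩ := hC.shift (F : Set V) F.finite_toSet
    exact ⟨f, h1, h2, fun x hx => ⟨(h3 x hx).1, fun h => (h3 x hx).2 h⟩⟩
  choose f hf1 hf2 hf3 using hsh
  -- the finite set of all points lying in a piece meeting `F`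
  have hpc : ∀ F : Finset V, ∃ G : Finset V, F ⊆ G ∧
      ∀ x ∈ F, ∀ y, y ∉ P → pc x = pc y → y ∈ G := by
    intro F
    have hfin : (⋃ x ∈ (F : Set V), {y | y ∉ P ∧ pc y = pc x}).Finite :=
      F.finite_toSet.biUnion fun x _ => hC.piece_fin (pc x)
    refine ⟨F ∪ hfin.toFinset, Finset.subset_union_left, fun x hx y hy hxy => ?_⟩
    apply Finset.mem_union_right
    rw [Set.Finite.mem_toFinset, Set.mem_iUnion₂]
    exact ⟨x, hx, hy, hxy.symm⟩
  choose G hG1 hG2 using hpc
  -- the finite set of points used before step `n`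
  let E : ℕ → Finset V := fun n => Nat.rec (G hB.toFinset)
    (fun k F => G (F ∪ (X k).image (f F))) n
  have hE0 : E 0 = G hB.toFinset := rfl
  have hES : ∀ n, E (n + 1) = G (E n ∪ (X n).image (f (E n))) := fun _ => rfl
  have hmono : ∀ n, E n ⊆ E (n + 1) := by
    intro n
    rw [hES]
    exact Finset.subset_union_left.trans (hG1 _)
  have hmono' : Monotone E := monotone_nat_of_le_succ hmono
  refine ⟨fun n => f (E n), fun n => hf1 _, fun n => hf2 _, fun n x hx => ?_, ?_⟩
  · refine ⟨(hf3 (E n) x hx).1, fun h => (hf3 (E n) x hx).2 ?_⟩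
    apply hmono' (Nat.zero_le n)
    rw [hE0]
    apply hG1
    rw [Set.Finite.mem_toFinset]
    exact h
  · intro i k hik x hx y hy
    have hxP : x ∉ P := hX i hx
    have hyP : y ∉ P := hX k hy
    have h1 := hf3 (E i) x hxP
    have h2 := hf3 (E k) y hyP
    have h3 : pc (f (E i) x) ≠ pc (f (E k) y) := by
      intro he
      apply h2.2
      apply hmono' (show i + 1 ≤ k from hik)
      rw [hES]
      refine hG2 _ (f (E i) x) ?_ _ h2.1 he
      exact Finset.mem_union_right _ (Finset.mem_image_of_mem _ hx)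
    refine ⟨fun he => h3 (congrArg pc he), fun ha => h3 ?_⟩
    exact hC.piece _ h1.1 _ h2.1 ha

theorem exists_copies {M : (i : I) → Set (Fin (ar i) → V)} {δ : I → Prop} {t : ℕ} {P : Set V}
    {pc : V → ℕ} {a : ℕ → Finset V} (hC : Core M δ t P pc a) {ι : Type} [Countable ι]
    (X : ι → Finset V) (hX : ∀ i, (X i : Set V) ⊆ Pᶜ) (B : Set V) (hB : B.Finite) :
    ∃ g : ι → V → V, (∀ i, PE M Set.univ (g i)) ∧ (∀ i, ∀ p ∈ P, g i p = p) ∧
      (∀ i, ∀ x, x ∉ P → g i x ∉ P ∧ g i x ∉ B) ∧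
      ∀ i k, i ≠ k → ∀ x ∈ X i, ∀ y ∈ X k, g i x ≠ g k y ∧ ¬ Adj M δ (g i x) (g k y) := by
  classical
  obtain ⟨e, he⟩ := exists_injective_nat ι
  let X' : ℕ → Finset V := fun n => if h : ∃ i, e i = n then X h.choose else ∅
  have hX'e : ∀ i, X' (e i) = X i := by
    intro i
    have h : ∃ k, e k = e i := ⟨i, rfl⟩
    have h1 : h.choose = i := he h.choose_spec
    change (if h : ∃ k, e k = e i then X h.choose else ∅) = X i
    rw [dif_pos h, h1]
  have hX' : ∀ n, (X' n : Set V) ⊆ Pᶜ := by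
    intro n
    by_cases h : ∃ i, e i = n
    · obtain ⟨i, rfl⟩ := h
      rw [hX'e]
      exact hX i
    · change ((if h : ∃ i, e i = n then X h.choose else ∅ : Finset V) : Set V) ⊆ Pᶜ
      rw [dif_neg h]
      simp
  obtain ⟨g, h1, h2, h3, h4⟩ := x05_nat hC X' hX' B hB
  refine ⟨fun i => g (e i), fun i => h1 _, fun i => h2 _, fun i => h3 _, ?_⟩
  intro i k hik x hx y hy
  have hne : e i ≠ e k := fun h => hik (he h)
  rcases lt_or_gt_of_ne hne with h | h
  · exact h4 (e i) (e k) h x (by rw [hX'e]; exact hx) y (by rw [hX'e]; exact hy)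
  · have h5 := h4 (e k) (e i) h y (by rw [hX'e]; exact hy) x (by rw [hX'e]; exact hx)
    exact ⟨fun he => h5.1 he.symm, fun ha => h5.2 (adj_symm _ _ ha)⟩

end Pool.Agent.Lib.MP_4fb322_lc_h91x
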