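import Mathlib
import Pool.Agent.Lib.MP_4fb322_lc_h91x.XDefs

set_option autoImplicit false

/-!
# Row X06

Classes of finite sets closed under disjoint copies over `T` are closed under non adjacent copies (no traps).
PROOF. Word for word the proof of `disjointSums_of_sparse` in Lib/MP_4fb322_lc_h91/Sparse.lean (many_traps, many_copies,
no_trap, no_trap_set), with: `Str ar` replaced by Finset V, members of `𝒜` by members of `𝒦`, `IsEmb A B f` by
`RM M T A B f`, `Adj H.2 δ x y` by `Rel M δ (T ∪ H) x y` (for `H ∈ 𝒦`; it is transported by `RM M T H K e`, `H, K ∈ 𝒦`: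
`Rel.map` on `T ∪ H` and `Rel.mono`, since `e '' (T ∪ H) ⊆ T ∪ K`), and `HasBiclique` through `Rel.adj`. The only axiom used
there is inexhaustibility, here hinex. At the end: given `A`, `B`: `G` from no_trap_set for `B` and `n = A.card`; hinex for
`A` and `G` gives `C ∈ 𝒦` and maps `e : A → C`, `g : G → C`; no_trap_set applied to `C`, `g` and the finite set
`e '' A ⊆ C`. (About 200 lines.)
-/

namespace Pool.Agent.Lib.MP_4fb322_lc_h91x

open Set Pool.Agent.Lib.MP_4fb322_lc_h70 Pool.Agent.Lib.MP_4fb322_lc_h91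
open Pool.Agent.Lib.MP_4fb322_lc_h21

variable {I : Type} {ar : I → ℕ} {V : Type}

private theorem rm_refl {M : (i : I) → Set (Fin (ar i) → V)} (T A : Set V) :
    RM M T A A id := ⟨PE_id _, fun _ _ => rfl, fun _ h => h⟩

private theorem rel_rm {M : (i : I) → Set (Fin (ar i) → V)} {δ : I → Prop} {T A B : Set V}
    {f : V → V} (hf : RM M T A B f) {x y : V} (h : Rel M δ (T ∪ A) x y) :
    Rel M δ (T ∪ B) (f x) (f y) := by
  refine (Rel.map hf.1 h).mono ?_
  rintro _ ⟨z, hz, rfl⟩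
  rcases hz with hz | hz
  · rw [hf.2.1 z hz]; exact Or.inl hz
  · exact Or.inr (hf.2.2 z hz)

private theorem rm_inj {M : (i : I) → Set (Fin (ar i) → V)} {T A B : Set V}
    {f : V → V} (hf : RM M T A B f) {x y : V} (hx : x ∈ A) (hy : y ∈ A) (h : f x = f y) :
    x = y := hf.1.1 (Or.inr hx) (Or.inr hy) h

/-- many distinct traps at the same time -/
private theorem many_traps' {M : (i : I) → Set (Fin (ar i) → V)} {δ : I → Prop}
    {T : Set V} {𝒦 : Set (Finset V)}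
    (hinex : ∀ A ∈ 𝒦, ∀ B ∈ 𝒦, ∃ C ∈ 𝒦, ∃ f g : V → V, RM M T (A : Set V) (C : Set V) f ∧
      RM M T (B : Set V) (C : Set V) g ∧ ∀ x ∈ A, ∀ y ∈ B, f x ≠ g y) {F : Finset V}
    (htrap : ∀ G ∈ 𝒦, ∃ H ∈ 𝒦, ∃ (g : V → V) (y : V), y ∈ H ∧
      RM M T (G : Set V) (H : Set V) g ∧ ∀ f : V → V, RM M T (F : Set V) (G : Set V) f →
        ∃ x ∈ F, y = g (f x) ∨ Rel M δ (T ∪ (H : Set V)) y (g (f x))) (n : ℕ) :
    ∀ G ∈ 𝒦, ∃ H ∈ 𝒦, ∃ (g : V → V) (y : Fin n → V), RM M T (G : Set V) (H : Set V) g ∧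
      Function.Injective y ∧ (∀ i, y i ∈ H) ∧ (∀ i, ∀ x ∈ G, y i ≠ g x) ∧
      ∀ i, ∀ f : V → V, RM M T (F : Set V) (G : Set V) f →
        ∃ x ∈ F, Rel M δ (T ∪ (H : Set V)) (y i) (g (f x)) := by
  induction n with
  | zero =>
    intro G hG
    exact ⟨G, hG, id, fun i => i.elim0, rm_refl _ _, fun i => i.elim0, fun i => i.elim0,
      fun i => i.elim0, fun i => i.elim0⟩
  | succ n ih =>
    intro G hG
    obtain ⟨H, hH, g, y, hg, hy, hyH, hyg, hya⟩ := ih G hG
    obtain ⟨G2, hG2, h1, h2, he1, he2, hd⟩ := hinex H hH H hH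
    obtain ⟨K, hK, k, z, hzK, hk, hz⟩ := htrap G2 hG2
    have hex : ∃ h : V → V, RM M T (H : Set V) (G2 : Set V) h ∧ ∀ x ∈ H, z ≠ k (h x) := by
      by_cases hc : ∃ x ∈ H, z = k (h1 x)
      · refine ⟨h2, he2, fun x hxH hx => ?_⟩
        obtain ⟨x', hx'H, hx'⟩ := hc
        exact hd x' hx'H x hxH (rm_inj hk (he1.2.2 x' hx'H) (he2.2.2 x hxH)
          (hx'.symm.trans hx))
      · push Not at hc
        exact ⟨h1, he1, hc⟩
    obtain ⟨h, hh, hzh⟩ := hex
    have hkh : RM M T (H : Set V) (K : Set V) (k ∘ h) := hh.comp hk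
    refine ⟨K, hK, (k ∘ h) ∘ g, Fin.snoc (fun i => k (h (y i))) z, hg.comp hkh, ?_, ?_, ?_,
      ?_⟩
    · intro i j hij
      induction i using Fin.lastCases with
      | last =>
        induction j using Fin.lastCases with
        | last => rfl
        | cast j =>
          simp only [Fin.snoc_last, Fin.snoc_castSucc] at hij
          exact absurd hij (hzh _ (hyH j))
      | cast i =>
        induction j using Fin.lastCases with
        | last =>
          simp only [Fin.snoc_last, Fin.snoc_castSucc] at hij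
          exact absurd hij.symm (hzh _ (hyH i))
        | cast j =>
          simp only [Fin.snoc_castSucc] at hij
          rw [hy (rm_inj hkh (hyH i) (hyH j) hij)]
    · intro i
      induction i using Fin.lastCases with
      | last =>
        simp only [Fin.snoc_last]
        exact hzK
      | cast i =>
        simp only [Fin.snoc_castSucc]
        exact hkh.2.2 _ (hyH i)
    · intro i x hx
      induction i using Fin.lastCases with
      | last =>
        simp only [Fin.snoc_last]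
        exact hzh _ (hg.2.2 x hx)
      | cast i =>
        simp only [Fin.snoc_castSucc]
        exact fun e => hyg i x hx (rm_inj hkh (hyH i) (hg.2.2 x hx) e)
    · intro i f hf
      induction i using Fin.lastCases with
      | last =>
        obtain ⟨x, hxF, hx⟩ := hz (h ∘ (g ∘ f)) ((hf.comp hg).comp hh)
        refine ⟨x, hxF, ?_⟩
        simp only [Fin.snoc_last]
        rcases hx with hx | hx
        · exact absurd hx (hzh _ (hg.2.2 _ (hf.2.2 x hxF)))
        · exact hx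
      | cast i =>
        obtain ⟨x, hxF, hx⟩ := hya i f hf
        refine ⟨x, hxF, ?_⟩
        simp only [Fin.snoc_castSucc]
        exact rel_rm hkh hx

/-- many pairwise disjoint copies -/
private theorem many_copies' {M : (i : I) → Set (Fin (ar i) → V)}
    {T : Set V} {𝒦 : Set (Finset V)}
    (hinex : ∀ A ∈ 𝒦, ∀ B ∈ 𝒦, ∃ C ∈ 𝒦, ∃ f g : V → V, RM M T (A : Set V) (C : Set V) f ∧
      RM M T (B : Set V) (C : Set V) g ∧ ∀ x ∈ A, ∀ y ∈ B, f x ≠ g y) {F : Finset V}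
    (hF : F ∈ 𝒦) (m : ℕ) :
    ∃ G ∈ 𝒦, ∃ f : Fin m → V → V, (∀ j, RM M T (F : Set V) (G : Set V) (f j)) ∧
      ∀ j k, j ≠ k → ∀ x ∈ F, ∀ y ∈ F, f j x ≠ f k y := by
  induction m with
  | zero => exact ⟨F, hF, fun j => j.elim0, fun j => j.elim0, fun j => j.elim0⟩
  | succ m ih =>
    obtain ⟨G, hG, f, hf, hd⟩ := ih
    obtain ⟨C, hC, a, b, ha, hb, hab⟩ := hinex G hG F hF
    refine ⟨C, hC, Fin.snoc (fun j => a ∘ f j) b, ?_, ?_⟩
    · intro j
      induction j using Fin.lastCases with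
      | last => simpa only [Fin.snoc_last] using hb
      | cast j => simpa only [Fin.snoc_castSucc] using (hf j).comp ha
    · intro j k hjk x hx y hy
      induction j using Fin.lastCases with
      | last =>
        induction k using Fin.lastCases with
        | last => exact absurd rfl hjk
        | cast k =>
          simp only [Fin.snoc_last, Fin.snoc_castSucc]
          exact (hab _ ((hf k).2.2 y hy) _ hx).symm
      | cast j =>
        induction k using Fin.lastCases with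
        | last =>
          simp only [Fin.snoc_last, Fin.snoc_castSucc]
          exact hab _ ((hf j).2.2 x hx) _ hy
        | cast k =>
          simp only [Fin.snoc_castSucc]
          exact fun e => hd j k (fun e' => hjk (by rw [e'])) x hx y hy
            (rm_inj ha ((hf j).2.2 x hx) ((hf k).2.2 y hy) e)

/-- no traps -/
private theorem no_trap' {M : (i : I) → Set (Fin (ar i) → V)} {δ : I → Prop} {t : ℕ}
    (hK : ¬ HasBiclique M δ t) {T : Set V} {𝒦 : Set (Finset V)}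
    (hinex : ∀ A ∈ 𝒦, ∀ B ∈ 𝒦, ∃ C ∈ 𝒦, ∃ f g : V → V, RM M T (A : Set V) (C : Set V) f ∧
      RM M T (B : Set V) (C : Set V) g ∧ ∀ x ∈ A, ∀ y ∈ B, f x ≠ g y) {F : Finset V}
    (hF : F ∈ 𝒦) :
    ∃ G ∈ 𝒦, ∀ H ∈ 𝒦, ∀ (g : V → V) (y : V), y ∈ H → RM M T (G : Set V) (H : Set V) g →
      ∃ f : V → V, RM M T (F : Set V) (G : Set V) f ∧
        ∀ x ∈ F, y ≠ g (f x) ∧ ¬ Rel M δ (T ∪ (H : Set V)) y (g (f x)) := by
  classical
  by_contra hno
  push Not at hno
  have htrap : ∀ G ∈ 𝒦, ∃ H ∈ 𝒦, ∃ (g : V → V) (y : V), y ∈ H ∧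
      RM M T (G : Set V) (H : Set V) g ∧ ∀ f : V → V, RM M T (F : Set V) (G : Set V) f →
        ∃ x ∈ F, y = g (f x) ∨ Rel M δ (T ∪ (H : Set V)) y (g (f x)) := by
    intro G hG
    obtain ⟨H, hH, g, y, hyH, hg, hall⟩ := hno G hG
    refine ⟨H, hH, g, y, hyH, hg, fun f hf => ?_⟩
    obtain ⟨x, hxF, hx⟩ := hall f hf
    refine ⟨x, hxF, ?_⟩
    by_cases h : y = g (f x)
    · exact Or.inl h
    · exact Or.inr (hx h)
  obtain ⟨G, hG, f, hf, hd⟩ := many_copies' hinex hF t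
  obtain ⟨H, hH, g, y, hg, hy, hyH, -, hya⟩ :=
    many_traps' hinex htrap (t * F.card ^ t) G hG
  choose p hpF hp using fun i j => hya i (f j) (hf j)
  rcases Nat.eq_zero_or_pos t with rfl | ht
  · exact hK ⟨fun i => i.elim0, fun i => i.elim0, fun i => i.elim0, fun i => i.elim0,
      fun i => i.elim0⟩
  rcases F.eq_empty_or_nonempty with h0 | ⟨x₀, hx₀⟩
  · obtain ⟨H', hH', g', y', -, hg', hy'⟩ := htrap F hF
    obtain ⟨x, hx, -⟩ := hy' id (rm_refl _ _)
    rw [h0] at hx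
    exact absurd hx (Finset.notMem_empty x)
  have hcard : Fintype.card (Fin t → F) * t ≤ Fintype.card (Fin (t * F.card ^ t)) := by
    simp [Fintype.card_fin, mul_comm]
  have : Nonempty (Fin t → F) := ⟨fun _ => ⟨x₀, hx₀⟩⟩
  obtain ⟨q, hq⟩ := Fintype.exists_le_card_fiber_of_mul_le_card
    (fun i => (fun j => (⟨p i j, hpF i j⟩ : F))) hcard
  obtain ⟨s, hs, hsc⟩ := Finset.exists_subset_card_eq hq
  refine hK ⟨fun i => y (s.orderEmbOfFin hsc i), fun j => g (f j (q j)), ?_, ?_, ?_⟩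
  · exact hy.comp (s.orderEmbOfFin hsc).injective
  · intro j k hjk
    by_contra hne
    exact hd j k hne _ (q j).2 _ (q k).2
      (rm_inj hg ((hf j).2.2 _ (q j).2) ((hf k).2.2 _ (q k).2) hjk)
  · intro i j
    have h1 := hs (Finset.orderEmbOfFin_mem s hsc i)
    have h2 : (fun j => (⟨p (s.orderEmbOfFin hsc i) j, hpF _ j⟩ : F)) = q := by
      simpa using h1
    have h3 := hp (s.orderEmbOfFin hsc i) j
    have h4 : p (s.orderEmbOfFin hsc i) j = (q j : V) := by
      rw [← h2]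
    rw [h4] at h3
    exact h3.adj

/-- finitely many points are no trap either -/
private theorem no_trap_set' {M : (i : I) → Set (Fin (ar i) → V)} {δ : I → Prop} {t : ℕ}
    (hK : ¬ HasBiclique M δ t) {T : Set V} {𝒦 : Set (Finset V)}
    (hinex : ∀ A ∈ 𝒦, ∀ B ∈ 𝒦, ∃ C ∈ 𝒦, ∃ f g : V → V, RM M T (A : Set V) (C : Set V) f ∧
      RM M T (B : Set V) (C : Set V) g ∧ ∀ x ∈ A, ∀ y ∈ B, f x ≠ g y) {F : Finset V}
    (hF : F ∈ 𝒦) (n : ℕ) :
    ∃ G ∈ 𝒦, ∀ H ∈ 𝒦, ∀ (g : V → V) (D : Finset V), D ⊆ H → D.card ≤ n →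
      RM M T (G : Set V) (H : Set V) g → ∃ f : V → V, RM M T (F : Set V) (G : Set V) f ∧
        ∀ x ∈ F, ∀ y ∈ D, y ≠ g (f x) ∧ ¬ Rel M δ (T ∪ (H : Set V)) y (g (f x)) := by
  classical
  induction n with
  | zero =>
    refine ⟨F, hF, fun H _ g D _ hD hg => ⟨id, rm_refl _ _, fun x _ y hy => ?_⟩⟩
    rw [Finset.card_eq_zero.1 (Nat.le_zero.1 hD)] at hy
    simp at hy
  | succ n ih =>
    obtain ⟨G, hG, h⟩ := ih
    obtain ⟨G₁, hG₁, h₁⟩ := no_trap' (δ := δ) hK hinex hG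
    obtain ⟨G', hG', e₀, e₁, he₀, he₁, -⟩ := hinex G hG G₁ hG₁
    have h' : ∀ H ∈ 𝒦, ∀ (g : V → V) (y : V), y ∈ H → RM M T (G' : Set V) (H : Set V) g →
        ∃ f : V → V, RM M T (G : Set V) (G' : Set V) f ∧
          ∀ x ∈ G, y ≠ g (f x) ∧ ¬ Rel M δ (T ∪ (H : Set V)) y (g (f x)) := by
      intro H hH g y hyH hg
      obtain ⟨f, hf, hf2⟩ := h₁ H hH (g ∘ e₁) y hyH (he₁.comp hg)
      exact ⟨e₁ ∘ f, hf.comp he₁, hf2⟩
    refine ⟨G', hG', fun H hH g D hDH hD hg => ?_⟩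
    rcases D.eq_empty_or_nonempty with rfl | ⟨d, hd⟩
    · obtain ⟨f, hf, -⟩ := h G hG id ∅ (by simp) (by simp) (rm_refl _ _)
      exact ⟨e₀ ∘ f, hf.comp he₀, fun x _ y hy => by simp at hy⟩
    · obtain ⟨e, he, he2⟩ := h' H hH g d (hDH hd) hg
      obtain ⟨f, hf, hf2⟩ := h H hH (g ∘ e) (D.erase d)
        ((Finset.erase_subset _ _).trans hDH) (by
        rw [Finset.card_erase_of_mem hd]
        omega) (he.comp hg)
      refine ⟨e ∘ f, hf.comp he, fun x hx y hy => ?_⟩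
      by_cases hyd : y = d
      · subst hyd
        exact he2 (f x) (hf.2.2 x hx)
      · exact hf2 x hx y (Finset.mem_erase.2 ⟨hyd, hy⟩)

theorem sum_rooted {M : (i : I) → Set (Fin (ar i) → V)} {δ : I → Prop} {t : ℕ}
    (hK : ¬ HasBiclique M δ t) {T : Set V} {𝒦 : Set (Finset V)}
    (hinex : ∀ A ∈ 𝒦, ∀ B ∈ 𝒦, ∃ C ∈ 𝒦, ∃ f g : V → V, RM M T (A : Set V) (C : Set V) f ∧
      RM M T (B : Set V) (C : Set V) g ∧ ∀ x ∈ A, ∀ y ∈ B, f x ≠ g y) :
    ∀ A ∈ 𝒦, ∀ B ∈ 𝒦, ∃ C ∈ 𝒦, ∃ f g : V → V, RM M T (A : Set V) (C : Set V) f ∧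
      RM M T (B : Set V) (C : Set V) g ∧
      ∀ x ∈ A, ∀ y ∈ B, f x ≠ g y ∧ ¬ Rel M δ (T ∪ (C : Set V)) (f x) (g y) := by
  classical
  intro A hA B hB
  obtain ⟨G, hG, h⟩ := no_trap_set' (δ := δ) hK hinex hB A.card
  obtain ⟨C, hC, a, g, ha, hg, -⟩ := hinex A hA G hG
  obtain ⟨f, hf, hf2⟩ := h C hC g (A.image a) (by
    intro z hz
    obtain ⟨x, hx, rfl⟩ := Finset.mem_image.1 hz
    exact ha.2.2 x hx) Finset.card_image_le hg
  refine ⟨C, hC, a, g ∘ f, ha, hf.comp hg, fun x hx y hy => ?_⟩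
  exact hf2 y hy (a x) (Finset.mem_image_of_mem a hx)

end Pool.Agent.Lib.MP_4fb322_lc_h91x
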