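import Mathlib
import Pool.Agent.Lib.MP_4fb322_lc_h91x.XDefs
import Pool.Agent.Lib.MP_4fb322_lc_h91x.X04

set_option autoImplicit false

/-!
# Row X07

Robust sets are closed under disjoint copies. PROOF. Suppose no such `C`. Call `C` a pair set if `↑C ⊆ Pᶜ` and
`∃ f g, RM M T A C f ∧ RM M T B C g ∧ (disjoint images)`; by assumption no pair set is robust. Apply
`exists_seq_of_forall_finset_exists` (Mathlib, Data/Fintype/Basic) with `P C` = pair set, `r C C' := ¬ RE M T C C'`: let `s` be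
a finite set of pair sets; for every `C ∈ s` there is `c C` such that for almost all `m` there is `Y C` of size at most `c C`
with `¬ RE M T C (X m \ Y C)` (negation of Robust, uf_not). For almost all `m` this holds for all `C ∈ s`, and `A` embeds over
`T` into `X m \ Y` for all `Y` of size at most `∑ c C`, `B` into `X m \ Y` for all `Y` of size at most `∑ c C + A.card`. Take
such an `m`, `Y = ⋃ Y C`, `f : A → X m \ Y`, `g : B → X m \ (Y ∪ f '' A)`, and `C' = f '' A ∪ g '' B`: a pair set with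
`¬ RE M T C C'` for `C ∈ s` (`C' ⊆ X m \ Y C`). The resulting infinite sequence contradicts `wqo_pins`. (About 120 lines.)
-/

namespace Pool.Agent.Lib.MP_4fb322_lc_h91x

open Set Pool.Agent.Lib.MP_4fb322_lc_h70 Pool.Agent.Lib.MP_4fb322_lc_h91
open Pool.Agent.Lib.MP_4fb322_lc_h21

variable {I : Type} {ar : I → ℕ} {V : Type}

theorem robust_inex {M : (i : I) → Set (Fin (ar i) → V)} {δ : I → Prop} {t : ℕ} {P : Set V}
    {pc : V → ℕ} {a : ℕ → Finset V} (hC : Core M δ t P pc a) {T : Set V} (hT : T.Finite)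
    (hTP : T ⊆ P) (X : ℕ → Finset V) (hX : ∀ m, (X m : Set V) ⊆ Pᶜ) {A B : Finset V}
    (hA : Robust M T X (A : Set V)) (hB : Robust M T X (B : Set V)) :
    ∃ C : Finset V, (C : Set V) ⊆ Pᶜ ∧ Robust M T X (C : Set V) ∧
      ∃ f g : V → V, RM M T (A : Set V) (C : Set V) f ∧ RM M T (B : Set V) (C : Set V) g ∧
        ∀ x ∈ A, ∀ y ∈ B, f x ≠ g y := by
  classical
  by_contra hno
  obtain ⟨PS, hPS⟩ : ∃ PS : Finset V → Prop, PS = fun C : Finset V => (C : Set V) ⊆ Pᶜ ∧
      ∃ f g : V → V, RM M T (A : Set V) (C : Set V) f ∧ RM M T (B : Set V) (C : Set V) g ∧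
        ∀ x ∈ A, ∀ y ∈ B, f x ≠ g y := ⟨_, rfl⟩
  have hnr : ∀ C, PS C → ∃ c : ℕ, ∀ᶠ m in UF, ∃ Y : Finset V, Y.card ≤ c ∧
      ¬ RE M T (C : Set V) ((X m : Set V) \ (Y : Set V)) := by
    intro C hC1
    rw [hPS] at hC1
    have h1 : ¬ Robust M T X (C : Set V) := fun h => hno ⟨C, hC1.1, h, hC1.2⟩
    unfold Robust at h1
    push Not at h1
    obtain ⟨c, h2⟩ := h1
    refine ⟨c, ?_⟩
    exact h2
  choose! c hc using hnr
  obtain ⟨F, hF1, hF2⟩ := exists_seq_of_forall_finset_exists PS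
    (fun C C' => ¬ RE M T (C : Set V) (C' : Set V)) (by
      intro s hs
      have h1 : ∀ᶠ m in UF, ∀ C ∈ s, ∃ Y : Finset V, Y.card ≤ c C ∧
          ¬ RE M T (C : Set V) ((X m : Set V) \ (Y : Set V)) :=
        (Filter.eventually_all_finset s).2 (fun C hCs => hc C (hs C hCs))
      obtain ⟨m, ⟨hm1, hm2⟩, hm3⟩ := ((h1.and (hA (∑ C ∈ s, c C))).and
        (hB (∑ C ∈ s, c C + A.card))).exists
      choose! Y hY1 hY2 using hm1
      have hcard : (s.biUnion Y).card ≤ ∑ C ∈ s, c C :=
        Finset.card_biUnion_le.trans (Finset.sum_le_sum hY1)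
      obtain ⟨f, hf1, hf2, hf3⟩ := hm2 (s.biUnion Y) hcard
      obtain ⟨g, hg1, hg2, hg3⟩ := hm3 (s.biUnion Y ∪ A.image f) (by
        refine (Finset.card_union_le _ _).trans ?_
        exact Nat.add_le_add hcard Finset.card_image_le)
      refine ⟨A.image f ∪ B.image g, ?_, ?_⟩
      · rw [hPS]
        refine ⟨?_, f, g, ⟨hf1, hf2, ?_⟩, ⟨hg1, hg2, ?_⟩, ?_⟩
        · intro x hx
          rw [Finset.mem_coe, Finset.mem_union, Finset.mem_image, Finset.mem_image] at hx
          rcases hx with ⟨y, hy, rfl⟩ | ⟨y, hy, rfl⟩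
          · exact hX m (hf3 y (Finset.mem_coe.2 hy)).1
          · exact hX m (hg3 y (Finset.mem_coe.2 hy)).1
        · intro y hy
          rw [Finset.mem_coe, Finset.mem_union]
          exact Or.inl (Finset.mem_image_of_mem f (Finset.mem_coe.1 hy))
        · intro y hy
          rw [Finset.mem_coe, Finset.mem_union]
          exact Or.inr (Finset.mem_image_of_mem g (Finset.mem_coe.1 hy))
        · intro x hx y hy hxy
          have h2 := (hg3 y (Finset.mem_coe.2 hy)).2
          apply h2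
          rw [Finset.mem_coe, Finset.mem_union, ← hxy]
          exact Or.inr (Finset.mem_image_of_mem f hx)
      · intro C hCs hRE
        apply hY2 C hCs
        obtain ⟨h, hh1, hh2, hh3⟩ := hRE
        refine ⟨h, hh1, hh2, fun y hy => ?_⟩
        have h4 := hh3 y hy
        rw [Finset.mem_coe, Finset.mem_union, Finset.mem_image, Finset.mem_image] at h4
        have key : ∀ z, z ∉ s.biUnion Y → z ∉ Y C := fun z hz hz2 =>
          hz (Finset.mem_biUnion.2 ⟨C, hCs, hz2⟩)
        rcases h4 with ⟨z, hz, hzh⟩ | ⟨z, hz, hzh⟩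
        · rw [← hzh]
          have h5 := hf3 z (Finset.mem_coe.2 hz)
          exact ⟨h5.1, fun h6 => key _ (fun h7 => h5.2 (Finset.mem_coe.2 h7)) (Finset.mem_coe.1 h6)⟩
        · rw [← hzh]
          have h5 := hg3 z (Finset.mem_coe.2 hz)
          exact ⟨h5.1, fun h6 => key _ (fun h7 => h5.2 (Finset.mem_coe.2
            (Finset.mem_union_left _ h7))) (Finset.mem_coe.1 h6)⟩)
  obtain ⟨i, j, hij, hRE⟩ := wqo_pins hC hT hTP F (fun n => by
    have := hF1 n
    rw [hPS] at this
    exact this.1)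
  exact hF2 i j hij hRE

end Pool.Agent.Lib.MP_4fb322_lc_h91x
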