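import Mathlib
import Pool.Agent.Lib.MP_4fb322_lc_h91x.XDefs
import Pool.Agent.Lib.MP_4fb322_lc_h91x.X06
import Pool.Agent.Lib.MP_4fb322_lc_h91x.X07
import Pool.Agent.Lib.MP_4fb322_lc_h21.W03

set_option autoImplicit false

/-!
# Row X08

Robust sets are closed under non adjacent unions. PROOF. Let `𝒦 = {C | ↑C ⊆ Pᶜ ∧ Robust M T X C}`; `robust_inex` is hinex of
`sum_rooted` (with `hC.sparse`). It gives `C ∈ 𝒦` and `f, g` for `D`, `E` with `f x ≠ g y` and `¬ Rel M δ (T ∪ C) (f x) (g y)`.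
`glue_rooted` (W03) with `Y1 = D`, `Y2 = E` (hsep; images inside `C`, Rel.mono; `T` is disjoint from `D`, `E` because `T ⊆ P`)
gives a rooted embedding of `D ∪ E` into `C`; then Robust.mono. (About 40 lines.)
-/

namespace Pool.Agent.Lib.MP_4fb322_lc_h91x

open Set Pool.Agent.Lib.MP_4fb322_lc_h70 Pool.Agent.Lib.MP_4fb322_lc_h91
open Pool.Agent.Lib.MP_4fb322_lc_h21

variable {I : Type} {ar : I → ℕ} {V : Type}

theorem robust_sum {M : (i : I) → Set (Fin (ar i) → V)} {δ : I → Prop} {t : ℕ} {P : Set V}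
    {pc : V → ℕ} {a : ℕ → Finset V} (hC : Core M δ t P pc a) {T : Set V} (hT : T.Finite)
    (hTP : T ⊆ P) (X : ℕ → Finset V) (hX : ∀ m, (X m : Set V) ⊆ Pᶜ) {D E : Finset V}
    (hDP : (D : Set V) ⊆ Pᶜ) (hEP : (E : Set V) ⊆ Pᶜ) (hDE : Disjoint D E)
    (hsep : ∀ x ∈ D, ∀ y ∈ E, ¬ Rel M δ (T ∪ ((D : Set V) ∪ (E : Set V))) x y)
    (hD : Robust M T X (D : Set V)) (hE : Robust M T X (E : Set V)) :
    Robust M T X ((D : Set V) ∪ (E : Set V)) := by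
  obtain ⟨C, ⟨-, hCr⟩, f, g, hf, hg, hfg⟩ := sum_rooted (M := M) (δ := δ) (t := t) hC.sparse
    (T := T) (𝒦 := {C : Finset V | (C : Set V) ⊆ Pᶜ ∧ Robust M T X (C : Set V)})
    (by
      rintro A ⟨-, hA⟩ B ⟨-, hB⟩
      obtain ⟨C, h1, h2, f, g, h3, h4, h5⟩ := robust_inex hC hT hTP X hX hA hB
      exact ⟨C, ⟨h1, h2⟩, f, g, h3, h4, h5⟩)
    D ⟨hDP, hD⟩ E ⟨hEP, hE⟩
  have hT1 : Disjoint T (D : Set V) :=
    Set.disjoint_left.2 fun x hx hxD => hDP hxD (hTP hx)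
  have hT2 : Disjoint T (E : Set V) :=
    Set.disjoint_left.2 fun x hx hxE => hEP hxE (hTP hx)
  have himg : f '' (D : Set V) ∪ g '' (E : Set V) ⊆ (C : Set V) := by
    rintro y (⟨x, hx, rfl⟩ | ⟨x, hx, rfl⟩)
    · exact hf.2.2 x hx
    · exact hg.2.2 x hx
  obtain ⟨h, h1, h2, h3, h4⟩ := glue_rooted (δ := δ) hf.1 hf.2.1 hg.1 hg.2.1
    (Finset.disjoint_coe.2 hDE) hT1 hT2 hsep
    (fun x hx y hy => ⟨(hfg x hx y hy).1, fun hr => (hfg x hx y hy).2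
      (hr.mono (Set.union_subset_union_right T himg))⟩)
  refine hCr.mono ⟨h, h1, h2, ?_⟩
  rintro y (hy | hy)
  · rw [h3 y hy]
    exact hf.2.2 y hy
  · rw [h4 y hy]
    exact hg.2.2 y hy

end Pool.Agent.Lib.MP_4fb322_lc_h91x
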