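import Mathlib
import Pool.Agent.Lib.MP_4fb322_lc_h91x.XDefs

set_option autoImplicit false

/-!
# Row X09

Components. PROOF. `Cmp M δ P X x = {y | Linked (Rel M δ (P ∪ X)) X x y}`; use Linked.refl/symm/trans/single/right of Basic
(symmetry: Rel.symm). cmp_image: `S' = {y ∈ S | f y ∈ Cmp .. (f x₀)}` is nonempty and closed under `Rel M δ (T ∪ S)` inside `S`
(Rel.map: `f '' (T ∪ S) ⊆ P ∪ X` as `f` fixes `T ⊆ P`; Rel.mono; cmp_step), so it is `S` by `Cn`. cmp_conn: for every pair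
`(y, z)` of points of the finite set `X` with `Rel M δ (P ∪ X) y z` fix a witness tuple; `T₀` = the set of all entries of
the witnesses which lie in `P` (finite). Let `T ⊇ T₀`, `T ⊆ P`, `K = Cmp .. x`. If `y, z ∈ K` and `Rel M δ (P ∪ X) y z` then the
chosen witness has its entries in `T ∪ K`: entries in `P` are in `T₀ ⊆ T`; an entry `w ∈ X`, `w ∉ P`, is `= y` or is adjacent
to `y` by the same tuple, so it is in `K` (cmp_step). So `Rel M δ (T ∪ K) y z`. A nonempty `R ⊆ K` closed under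
`Rel M δ (T ∪ K)` inside `K` is then closed under `Rel M δ (P ∪ X)` inside `X`, and contains with a point everything linked to
it (induction on the length of a walk), so `R = K`. (About 150 lines.)
-/

namespace Pool.Agent.Lib.MP_4fb322_lc_h91x

open Set Pool.Agent.Lib.MP_4fb322_lc_h70 Pool.Agent.Lib.MP_4fb322_lc_h91
open Pool.Agent.Lib.MP_4fb322_lc_h21

variable {I : Type} {ar : I → ℕ} {V : Type}

theorem cmp_sub {M : (i : I) → Set (Fin (ar i) → V)} {δ : I → Prop} {P X : Set V} {x y : V}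
    (h : y ∈ Cmp M δ P X x) : y ∈ X :=
  Linked.right h

theorem cmp_self {M : (i : I) → Set (Fin (ar i) → V)} {δ : I → Prop} {P X : Set V} {x : V}
    (h : x ∈ X) : x ∈ Cmp M δ P X x :=
  Linked.refl h

private theorem x09_symm {M : (i : I) → Set (Fin (ar i) → V)} {δ : I → Prop} {W : Set V} :
    ∀ x y, Rel M δ W x y → Rel M δ W y x := fun _ _ h => h.symm

theorem cmp_eq {M : (i : I) → Set (Fin (ar i) → V)} {δ : I → Prop} {P X : Set V} {x y : V}
    (h : y ∈ Cmp M δ P X x) : Cmp M δ P X y = Cmp M δ P X x := by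
  ext z
  constructor
  · intro hz
    exact Linked.trans h hz
  · intro hz
    exact Linked.trans (Linked.symm x09_symm h) hz

theorem cmp_step {M : (i : I) → Set (Fin (ar i) → V)} {δ : I → Prop} {P X : Set V} {x y z : V}
    (h : y ∈ Cmp M δ P X x) (hz : z ∈ X) (hyz : Rel M δ (P ∪ X) y z) :
    z ∈ Cmp M δ P X x :=
  Linked.trans h (Linked.single (cmp_sub h) hz hyz)

theorem cmp_image {M : (i : I) → Set (Fin (ar i) → V)} {δ : I → Prop} {P X T S : Set V}
    (hTP : T ⊆ P) (hS : Cn (Rel M δ (T ∪ S)) S) {f : V → V} (hf : RM M T S X f) {x₀ : V}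
    (hx₀ : x₀ ∈ S) : ∀ y ∈ S, f y ∈ Cmp M δ P X (f x₀) := by
  obtain ⟨hf1, hf2, hf3⟩ := hf
  have himg : f '' (T ∪ S) ⊆ P ∪ X := by
    rintro _ ⟨w, hw | hw, rfl⟩
    · rw [hf2 w hw]
      exact Or.inl (hTP hw)
    · exact Or.inr (hf3 w hw)
  have h1 := hS {y | y ∈ S ∧ f y ∈ Cmp M δ P X (f x₀)} (fun y hy => hy.1)
    ⟨x₀, hx₀, cmp_self (hf3 x₀ hx₀)⟩ (by
      rintro y ⟨hy, hyc⟩ z hz hyz
      exact ⟨hz, cmp_step hyc (hf3 z hz) ((Rel.map hf1 hyz).mono himg)⟩)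
  intro y hy
  exact (h1.symm.subset hy).2

theorem cmp_conn {M : (i : I) → Set (Fin (ar i) → V)} {δ : I → Prop} {P X : Set V}
    (hX : X.Finite) (hXP : X ⊆ Pᶜ) (x : V) : ∃ T₀ : Set V, T₀.Finite ∧ T₀ ⊆ P ∧
      ∀ T : Set V, T₀ ⊆ T → T ⊆ P → Cn (Rel M δ (T ∪ Cmp M δ P X x)) (Cmp M δ P X x) := by
  classical
  -- the entries in `P` of a chosen witness
  have hw : ∀ p : V × V, ∃ E : Set V, E.Finite ∧ (Rel M δ (P ∪ X) p.1 p.2 →
      ∃ (i : I) (s : Fin (ar i) → V), (∀ l, s l ∈ P ∪ X) ∧ (∃ j, s j = p.1) ∧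
        (∃ k, s k = p.2) ∧ ¬ (s ∈ M i ↔ δ i) ∧ Set.range s ⊆ E) := by
    intro p
    by_cases h : Rel M δ (P ∪ X) p.1 p.2
    · obtain ⟨h1, i, s, h2, h3, h4, h5⟩ := h
      exact ⟨Set.range s, Set.finite_range s, fun _ => ⟨i, s, h2, h3, h4, h5, subset_rfl⟩⟩
    · exact ⟨∅, Set.finite_empty, fun h' => absurd h' h⟩
  choose E hE1 hE2 using hw
  have hfin : (⋃ p ∈ X ×ˢ X, E p).Finite := (hX.prod hX).biUnion fun p _ => hE1 p
  refine ⟨(⋃ p ∈ X ×ˢ X, E p) ∩ P, hfin.subset Set.inter_subset_left, Set.inter_subset_right,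
    fun T hT hTP => ?_⟩
  have key : ∀ y ∈ Cmp M δ P X x, ∀ z ∈ Cmp M δ P X x, Rel M δ (P ∪ X) y z →
      Rel M δ (T ∪ Cmp M δ P X x) y z := by
    intro y hy z hz hyz
    have hyX : y ∈ X := cmp_sub hy
    have hzX : z ∈ X := cmp_sub hz
    obtain ⟨i, s, h2, h3, h4, h5, h6⟩ := hE2 (y, z) hyz
    refine ⟨hyz.1, i, s, fun l => ?_, h3, h4, h5⟩
    rcases h2 l with hl | hl
    · left
      apply hT
      refine ⟨?_, hl⟩
      rw [Set.mem_iUnion₂]
      exact ⟨(y, z), ⟨hyX, hzX⟩, h6 ⟨l, rfl⟩⟩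
    · right
      by_cases he : s l = y
      · rw [he]
        exact hy
      · refine cmp_step hy hl ⟨fun e => he e.symm, i, s, h2, h3, ⟨l, rfl⟩, h5⟩
  intro R hRK hRne hRcl
  apply Set.Subset.antisymm hRK
  obtain ⟨r, hr⟩ := hRne
  have hrK := hRK hr
  -- everything linked to `r` is in `R`
  have hwalk : ∀ (n : ℕ) (y z : V), y ∈ R → Wk (Rel M δ (P ∪ X)) X n y z → z ∈ R := by
    intro n y z hy hyz
    obtain ⟨w, ⟨hw1, hw2⟩, hw3, hw4⟩ := hyz
    have : ∀ k, k ≤ n → w k ∈ R := by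
      intro k
      induction k with
      | zero =>
        intro _
        rw [hw3]
        exact hy
      | succ k ih =>
        intro hk
        have h1 := ih (by omega)
        have h2 := hw2 k (by omega)
        have h3 : w (k + 1) ∈ Cmp M δ P X x := cmp_step (hRK h1) (hw1 _ hk) h2
        exact hRcl _ h1 _ h3 (key _ (hRK h1) _ h3 h2)
    rw [← hw4]
    exact this n le_rfl
  intro z hz
  have h1 : z ∈ Cmp M δ P X r := by
    rw [cmp_eq hrK]
    exact hz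
  obtain ⟨n, hn⟩ := h1
  exact hwalk n r z hr hn

end Pool.Agent.Lib.MP_4fb322_lc_h91x
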