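import Mathlib
import Pool.Agent.Lib.MP_4fb322_lc_h91x.XDefs

set_option autoImplicit false

/-!
# Row X10

(1) irr_image: `f '' a j \ P ⊆ f '' (a j \ P)`. If some `x ∈ a j`, `x ∉ P` had `f x ∈ P`, then
`f '' a j \ P ⊆ f '' ((a j \ P) \ {x})`, of ncard at most `(a j \ P).ncard - 1`, contradicting `hC.irr` (everything finite).
(2) pins_mem: if not, by uf_not `p ∉ a j` for the `j` of a set in the ultrafilter, hence for arbitrarily large `j`
(uf_infinite), and `VE M (a j) {p}ᶜ` through the identity; by `Core.min` every finite `Y` embeds in `{p}ᶜ`, contradiction to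
`Core.pin`. (3) ve_of_parts: `f` on `Xa` and the identity on `a n ∩ P`: the rooted embedding `f` of `Xa P a n` over
`T ⊇ a n ∩ P` is an embedding of `a n ⊆ T ∪ Xa P a n`. (About 50 lines.)
-/

namespace Pool.Agent.Lib.MP_4fb322_lc_h91x

open Set Pool.Agent.Lib.MP_4fb322_lc_h70 Pool.Agent.Lib.MP_4fb322_lc_h91
open Pool.Agent.Lib.MP_4fb322_lc_h21

variable {I : Type} {ar : I → ℕ} {V : Type}

theorem irr_image {M : (i : I) → Set (Fin (ar i) → V)} {δ : I → Prop} {t : ℕ} {P : Set V}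
    {pc : V → ℕ} {a : ℕ → Finset V} (hC : Core2 M δ t P pc a) {j : ℕ} {f : V → V}
    (hf : PE M (a j : Set V) f) (hfP : ∀ x ∈ a j, x ∈ P → f x ∈ P) :
    ∀ x ∈ a j, x ∉ P → f x ∉ P := by
  intro x hx hxP hfx
  have h1 : f '' (a j : Set V) \ P ⊆ f '' (((a j : Set V) \ P) \ {x}) := by
    rintro y ⟨⟨z, hz, rfl⟩, hyP⟩
    refine ⟨z, ⟨⟨hz, fun hzP => hyP (hfP z hz hzP)⟩, ?_⟩, rfl⟩
    rintro rfl
    exact hyP hfx
  have hfin : ((a j : Set V) \ P).Finite := (a j).finite_toSet.subset Set.sdiff_subset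
  have hfin' : (((a j : Set V) \ P) \ {x}).Finite := hfin.subset Set.sdiff_subset
  have h2 := Set.ncard_le_ncard h1 (hfin'.image f)
  have h3 := Set.ncard_image_le (f := f) hfin'
  have h4 := hC.irr j f hf
  have h5 : (((a j : Set V) \ P) \ {x}).ncard < ((a j : Set V) \ P).ncard :=
    Set.ncard_sdiff_singleton_lt_of_mem ⟨hx, hxP⟩ hfin
  omega

theorem pins_mem {M : (i : I) → Set (Fin (ar i) → V)} {δ : I → Prop} {t : ℕ} {P : Set V}
    {pc : V → ℕ} {a : ℕ → Finset V} (hC : Core M δ t P pc a) {p : V} (hp : p ∈ P) :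
    ∀ᶠ m in UF, p ∈ a m := by
  by_contra hno
  have h1 := uf_not.1 hno
  obtain ⟨Y, hY, hYn⟩ := hC.pin p hp
  refine hYn (hC.min {p}ᶜ (fun n => ?_) Y hY)
  obtain ⟨j, hj1, hj2⟩ := (h1.and (uf_gt n)).exists
  refine ⟨j, hj2.le, id, PE_id _, fun x hx hxp => ?_⟩
  rw [Set.mem_singleton_iff] at hxp
  exact hj1 (hxp ▸ hx)

theorem ve_of_parts {M : (i : I) → Set (Fin (ar i) → V)} {P T X : Set V} {a : ℕ → Finset V}
    {n : ℕ} (hT : (a n : Set V) ∩ P ⊆ T) (h : RE M T (Xa P a n : Set V) X)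
    (hX : (a n : Set V) ∩ P ⊆ X) : VE M (a n : Set V) X := by
  obtain ⟨f, hf, hfT, hfX⟩ := h
  have hsub : (a n : Set V) ⊆ T ∪ (Xa P a n : Set V) := by
    intro x hx
    by_cases hxP : x ∈ P
    · exact Or.inl (hT ⟨hx, hxP⟩)
    · exact Or.inr (mem_Xa.2 ⟨hx, hxP⟩)
  refine ⟨f, PE_mono hf hsub, fun x hx => ?_⟩
  by_cases hxP : x ∈ P
  · rw [hfT x (hT ⟨hx, hxP⟩)]
    exact hX ⟨hx, hxP⟩
  · exact hfX x (mem_Xa.2 ⟨hx, hxP⟩)

end Pool.Agent.Lib.MP_4fb322_lc_h91x
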