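import Mathlib
import Pool.Agent.Lib.MP_4fb322_lc_h91x.XDefs
import Pool.Agent.Lib.MP_4fb322_lc_h91x.X03
import Pool.Agent.Lib.MP_4fb322_lc_h91x.X04
import Pool.Agent.Lib.MP_4fb322_lc_h91x.X05
import Pool.Agent.Lib.MP_4fb322_lc_h91x.X08
import Pool.Agent.Lib.MP_4fb322_lc_h91x.X10

set_option autoImplicit false

/-!
# Row X11

Some connected set is not robust. PROOF. Let `X = Xa P a` and suppose (H): every nonempty finite `C ⊆ Pᶜ`, connected over
`T`, which embeds over `T` into almost all `X m`, is robust. `Ω = {j | ∀ᶠ m in UF, RE M T (X j) (X m)}` is in UF (wqo_uf).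
`exists_copies` (ι = ℕ, B = ∅): `g`. Let `N = P ∪ ⋃ j ∈ Ω, g j '' X j`. For `j ∈ Ω`: `VE M (a j) N` (through `g j`: identity on
`P`), and Ω is infinite, so every finite set embeds into `N` (Core.min); rooted_full_pins for the constant sequence gives
`f` with `RM M T (X 0) N f`. As `T ∪ X 0 ⊇ a 0` (h0), irr_image gives `f x ∉ P` for `x ∈ X 0`, so `X 0` embeds over `T` into
`Z = ⋃ j ∈ Ω, g j '' X j`. CLAIM: every finite `A ⊆ Pᶜ` with `RE M T A Z` is robust (strong induction on the size): `A = ∅`: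
trivial. `A` nonempty connected over `T`: by conn_image (parts `g j '' X j`, j ∈ Ω) it embeds over `T` into one `g j '' X j`,
hence (RE_of_image) into `X j`, hence into almost all `X m`; robust by (H). `A` not connected: a nonempty `R ⊂ A` closed
under `Rel M δ (T ∪ A)` in `A`; `R` and `A \ R` are smaller, embed into `Z`, and robust_sum applies (Rel.symm not needed).
So `X 0` is robust, so `RE M T (X 0) (X m)` for almost all `m` (Robust.re), and `a 0 ∩ P ⊆ a m` for almost all `m`
(pins_mem, finitely many points), `m ≠ 0` (uf_ne): `VE M (a 0) (a m)` (ve_of_parts with X = a m), against `Core.anti`.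
(About 150 lines.)
-/

namespace Pool.Agent.Lib.MP_4fb322_lc_h91x

open Set Pool.Agent.Lib.MP_4fb322_lc_h70 Pool.Agent.Lib.MP_4fb322_lc_h91
open Pool.Agent.Lib.MP_4fb322_lc_h21

variable {I : Type} {ar : I → ℕ} {V : Type}

theorem step_alpha {M : (i : I) → Set (Fin (ar i) → V)} {δ : I → Prop} {t : ℕ} {P : Set V}
    {pc : V → ℕ} {a : ℕ → Finset V} (hC : Core2 M δ t P pc a) {T : Set V} (hT : T.Finite)
    (hTP : T ⊆ P) (h0 : (a 0 : Set V) ∩ P ⊆ T) :
    ∃ C : Finset V, C.Nonempty ∧ (C : Set V) ⊆ Pᶜ ∧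
      Cn (Rel M δ (T ∪ (C : Set V))) (C : Set V) ∧
      (∀ᶠ m in UF, RE M T (C : Set V) (Xa P a m : Set V)) ∧
      ¬ Robust M T (Xa P a) (C : Set V) := by
  classical
  by_contra hno
  have hH : ∀ C : Finset V, C.Nonempty → (C : Set V) ⊆ Pᶜ →
      Cn (Rel M δ (T ∪ (C : Set V))) (C : Set V) →
      (∀ᶠ m in UF, RE M T (C : Set V) (Xa P a m : Set V)) →
      Robust M T (Xa P a) (C : Set V) := by
    intro C h1 h2 h3 h4
    by_contra h5
    exact hno ⟨C, h1, h2, h3, h4, h5⟩
  set Om : Set ℕ := {j | ∀ᶠ m in UF, RE M T (Xa P a j : Set V) (Xa P a m : Set V)} with hOm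
  have hOmU : Om ∈ UF := wqo_uf hC.core hT hTP (Xa P a) Xa_sub
  obtain ⟨g, hg1, hg2, hg3, hg4⟩ := exists_copies hC.core (ι := ℕ) (Xa P a) Xa_sub ∅
    Set.finite_empty
  set Z : Set V := {z | ∃ j ∈ Om, z ∈ g j '' (Xa P a j : Set V)} with hZ
  have hN : ∀ Y : Set V, Y.Finite → VE M Y (P ∪ Z) := by
    apply hC.core.min
    intro n
    obtain ⟨j, hj, hnj⟩ := (uf_infinite hOmU).exists_gt n
    refine ⟨j, hnj.le, g j, PE_mono (hg1 j) (Set.subset_univ _), fun y hy => ?_⟩
    by_cases hyP : y ∈ P
    · left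
      rw [hg2 j y hyP]
      exact hyP
    · right
      exact ⟨j, hj, y, by rw [coe_Xa]; exact ⟨hy, hyP⟩, rfl⟩
  have hfull := rooted_full_pins hC.core (fun _ => P ∪ Z) (fun Y hY => Filter.Eventually.of_forall
    fun _ => hN Y hY) hT hTP (Xa P a 0 : Set V) (Finset.finite_toSet _)
  obtain ⟨m0, f, hf, hfT, hfN⟩ := hfull.exists
  have hfZ : ∀ y ∈ (Xa P a 0 : Set V), f y ∈ Z := by
    intro y hy
    have hsub : (a 0 : Set V) ⊆ T ∪ (Xa P a 0 : Set V) := by
      intro x hx
      by_cases hxP : x ∈ P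
      · exact Or.inl (h0 ⟨hx, hxP⟩)
      · right
        rw [coe_Xa]
        exact ⟨hx, hxP⟩
    have hirr := irr_image hC (j := 0) (f := f) (PE_mono hf hsub) (by
      intro x hx hxP
      rw [hfT x (h0 ⟨hx, hxP⟩)]
      exact hxP)
    rw [coe_Xa] at hy
    rcases hfN y (by rw [coe_Xa]; exact hy) with h | h
    · exact absurd h (hirr y hy.1 hy.2)
    · exact h
  have hX0 : RE M T (Xa P a 0 : Set V) Z := ⟨f, hf, hfT, hfZ⟩
  have claim : ∀ A : Finset V, (A : Set V) ⊆ Pᶜ → RE M T (A : Set V) Z →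
      Robust M T (Xa P a) (A : Set V) := by
    intro A
    induction A using Finset.strongInduction with
    | _ A ih =>
      intro hAP hAZ
      rcases A.eq_empty_or_nonempty with hA | hA
      · subst hA
        intro c
        refine Filter.Eventually.of_forall fun m Y _ => ⟨id, PE_id _, fun _ _ => rfl, ?_⟩
        intro y hy
        simp at hy
      by_cases hcn : Cn (Rel M δ (T ∪ (A : Set V))) (A : Set V)
      · apply hH A hA hAP hcn
        obtain ⟨x₀, hx₀⟩ := hA
        obtain ⟨e, he, heT, heZ⟩ := hAZ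
        obtain ⟨i, hi⟩ := conn_image (ι := Om) hcn (x₀ := x₀) (Finset.mem_coe.2 hx₀) he
          (fun i => g i '' (Xa P a i : Set V)) (by
            rintro i j hij _ ⟨x, hx, rfl⟩ _ ⟨y, hy, rfl⟩
            exact (hg4 i j (fun h => hij (Subtype.ext h)) x hx y hy).2) (by
            intro x hx
            obtain ⟨j, hj, hj'⟩ := heZ x hx
            exact ⟨⟨j, hj⟩, hj'⟩)
        have h1 : RE M T (A : Set V) (g i '' (Xa P a i : Set V)) := ⟨e, he, heT, hi⟩
        obtain ⟨h, hh, -⟩ := RE_of_image (M := M) (g := g i) (T := T) (A := (Xa P a i : Set V))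
          (PE_mono (hg1 i) (Set.subset_univ _)) (fun x hx => hg2 i x (hTP hx))
        have h2 : RE M T (A : Set V) (Xa P a i : Set V) := h1.trans hh.re
        have hi2 : ∀ᶠ m in UF, RE M T (Xa P a i : Set V) (Xa P a m : Set V) := i.2
        filter_upwards [hi2] with m hm
        exact h2.trans hm
      · have hcn' : ∃ R : Set V, R ⊆ (A : Set V) ∧ R.Nonempty ∧
            (∀ x ∈ R, ∀ y ∈ (A : Set V), Rel M δ (T ∪ (A : Set V)) x y → y ∈ R) ∧
            R ≠ (A : Set V) := by
          by_contra hcon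
          apply hcn
          intro R h1 h2 h3
          by_contra h4
          exact hcon ⟨R, h1, h2, h3, h4⟩
        obtain ⟨R, hRA, hRn, hRc, hRne⟩ := hcn'
        set D : Finset V := A.filter (fun x => x ∈ R) with hD
        set E : Finset V := A.filter (fun x => x ∉ R) with hE
        have hDR : ∀ x, x ∈ D ↔ x ∈ R := by
          intro x
          rw [hD, Finset.mem_filter]
          exact ⟨fun h => h.2, fun h => ⟨Finset.mem_coe.1 (hRA h), h⟩⟩
        have hDA : D ⊆ A := Finset.filter_subset _ _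
        have hEA : E ⊆ A := Finset.filter_subset _ _
        have hDE : (D : Set V) ∪ (E : Set V) = (A : Set V) := by
          ext x
          simp only [hD, hE, Set.mem_union, Finset.mem_coe, Finset.mem_filter]
          tauto
        have hDs : D ⊂ A := by
          refine Finset.ssubset_iff_subset_ne.2 ⟨hDA, fun h => hRne ?_⟩
          ext x
          rw [← hDR x, h, Finset.mem_coe]
        have hEs : E ⊂ A := by
          refine Finset.ssubset_iff_subset_ne.2 ⟨hEA, fun h => ?_⟩
          obtain ⟨x, hx⟩ := hRn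
          have h1 : x ∈ E := by
            rw [h]
            exact Finset.mem_coe.1 (hRA hx)
          rw [hE, Finset.mem_filter] at h1
          exact h1.2 hx
        have hcoeD : (D : Set V) ⊆ (A : Set V) := Finset.coe_subset.2 hDA
        have hcoeE : (E : Set V) ⊆ (A : Set V) := Finset.coe_subset.2 hEA
        have h1 := ih D hDs (hcoeD.trans hAP) (hAZ.mono hcoeD le_rfl)
        have h2 := ih E hEs (hcoeE.trans hAP) (hAZ.mono hcoeE le_rfl)
        have h3 := robust_sum hC.core hT hTP (Xa P a) Xa_sub (D := D) (E := E)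
          (hcoeD.trans hAP) (hcoeE.trans hAP) (by
            rw [Finset.disjoint_left]
            intro x hx hx'
            rw [hE, Finset.mem_filter] at hx'
            exact hx'.2 ((hDR x).1 hx)) (by
            intro x hx y hy hxy
            rw [hDE] at hxy
            have := hRc x ((hDR x).1 hx) y (hcoeE hy) hxy
            rw [hE, Finset.mem_filter] at hy
            exact hy.2 this) h1 h2
        rwa [hDE] at h3
  have hrob := (claim (Xa P a 0) (Xa_sub 0) hX0).re
  have hpins : ∀ᶠ m in UF, ∀ p ∈ (a 0).filter (fun x => x ∈ P), p ∈ a m := by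
    rw [Filter.eventually_all_finset]
    intro p hp
    exact pins_mem hC.core (Finset.mem_filter.1 hp).2
  obtain ⟨m, ⟨hm1, hm2⟩, hm3⟩ := ((hrob.and hpins).and (uf_ne 0)).exists
  refine hC.core.anti 0 m hm3.symm ?_
  refine ve_of_parts (P := P) (T := T) (n := 0) h0 (hm1.mono le_rfl ?_) ?_
  · rw [coe_Xa]
    exact Set.sdiff_subset
  · rintro x ⟨hx, hxP⟩
    exact Finset.mem_coe.2 (hm2 x (Finset.mem_filter.2 ⟨Finset.mem_coe.1 hx, hxP⟩))

end Pool.Agent.Lib.MP_4fb322_lc_h91x
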