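import Mathlib
import Pool.Agent.Lib.MP_4fb322_lc_h91x.XDefs
import Pool.Agent.Lib.MP_4fb322_lc_h91x.X09

set_option autoImplicit false

/-!
# Row X12

The special components. PROOF. For a finite `X` let `S X : Finset (Finset V)` be the set of all components `(Cmp M δ P X x)`
(as finsets: they are subsets of `X`), `x ∈ X`, with `RE M T C (Cmp ..)`. (1) nonempty for almost all `m`: a rooted
embedding of `C` into `X m` has its image in one component (cmp_image, C nonempty). (2) bounded: ¬ Robust gives `c` such that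
for almost all `m` there is `Y`, `Y.card ≤ c`, with `¬ RE M T C (X m \ Y)`; every special component meets `Y` (otherwise it is
contained in `X m \ Y`), different components are disjoint (cmp_eq), so `(S (X m)).card ≤ c`. (3) `uf_exists` with
`ι = Fin (c + 1)`: one `q ≥ 1` with `(S (X m)).card = q` for almost all `m`; for these `m` let `D m` be the enumeration
`(S (X m)).equivFin` (transported to `Fin q`), for the others anything. (About 100 lines.)
-/

namespace Pool.Agent.Lib.MP_4fb322_lc_h91x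

open Set Pool.Agent.Lib.MP_4fb322_lc_h70 Pool.Agent.Lib.MP_4fb322_lc_h91
open Pool.Agent.Lib.MP_4fb322_lc_h21

variable {I : Type} {ar : I → ℕ} {V : Type}

theorem exists_spec {M : (i : I) → Set (Fin (ar i) → V)} {δ : I → Prop} {P T : Set V}
    (hTP : T ⊆ P) (X : ℕ → Finset V) (hX : ∀ m, (X m : Set V) ⊆ Pᶜ) {C : Finset V}
    (hCne : C.Nonempty) (hconn : Cn (Rel M δ (T ∪ (C : Set V))) (C : Set V))
    (hCm : ∀ᶠ m in UF, RE M T (C : Set V) (X m : Set V))
    (hnr : ¬ Robust M T X (C : Set V)) :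
    ∃ (q : ℕ) (D : ℕ → Fin q → Finset V), 0 < q ∧
      ∀ᶠ m in UF, Spec M δ P T C (X m) (D m) := by
  classical
  -- components as finsets
  let cf : ℕ → V → Finset V := fun m x =>
    (X m).filter (fun y => y ∈ Cmp M δ P (X m : Set V) x)
  have hcf : ∀ m x, (cf m x : Set V) = Cmp M δ P (X m : Set V) x := by
    intro m x
    ext y
    rw [Finset.mem_coe, Finset.mem_filter]
    exact ⟨fun h => h.2, fun h => ⟨Finset.mem_coe.1 (cmp_sub h), h⟩⟩
  let S : ℕ → Finset (Finset V) := fun m =>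
    ((X m).image (cf m)).filter (fun K => RE M T (C : Set V) (K : Set V))
  have hS : ∀ m K, K ∈ S m ↔ (∃ x ∈ X m, cf m x = K) ∧ RE M T (C : Set V) (K : Set V) := by
    intro m K
    rw [Finset.mem_filter, Finset.mem_image]
  -- (1) nonempty
  have hne : ∀ᶠ m in UF, (S m).Nonempty := by
    filter_upwards [hCm] with m hm
    obtain ⟨f, hf⟩ := hm
    obtain ⟨x₀, hx₀⟩ := hCne
    have h1 := cmp_image (δ := δ) hTP hconn hf (Finset.mem_coe.2 hx₀)
    have hx₀X : f x₀ ∈ X m := Finset.mem_coe.1 (hf.2.2 x₀ (Finset.mem_coe.2 hx₀))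
    refine ⟨cf m (f x₀), (hS m _).2 ⟨⟨f x₀, hx₀X, rfl⟩, f, hf.1, hf.2.1, ?_⟩⟩
    intro y hy
    rw [hcf]
    exact h1 y hy
  -- (2) bounded
  obtain ⟨c, hc⟩ : ∃ c : ℕ, ∀ᶠ m in UF, (S m).card ≤ c := by
    have h1 : ∃ c : ℕ, ¬ ∀ᶠ m in UF, ∀ Y : Finset V, Y.card ≤ c →
        RE M T (C : Set V) ((X m : Set V) \ (Y : Set V)) := by
      by_contra hno
      push Not at hno
      exact hnr hno
    obtain ⟨c, hc⟩ := h1
    refine ⟨c, ?_⟩
    rw [uf_not] at hc
    filter_upwards [hc] with m hm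
    push Not at hm
    obtain ⟨Y, hY, hYno⟩ := hm
    have h2 : ∀ K ∈ S m, ∃ y, y ∈ K ∧ y ∈ Y := by
      intro K hK
      by_contra hno
      push Not at hno
      obtain ⟨⟨x, hx, hxK⟩, hRE⟩ := (hS m K).1 hK
      apply hYno
      refine hRE.mono subset_rfl ?_
      intro y hy
      refine ⟨?_, fun hyY => hno y (Finset.mem_coe.1 hy) (Finset.mem_coe.1 hyY)⟩
      rw [← hxK] at hy
      exact Finset.mem_coe.2 (Finset.mem_filter.1 (Finset.mem_coe.1 hy)).1
    haveI : Nonempty V := ⟨hCne.choose⟩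
    choose! g hg1 hg2 using h2
    have h3 : (S m).card ≤ Y.card := by
      apply Finset.card_le_card_of_injOn g
      · intro K hK
        exact hg2 K (Finset.mem_coe.1 hK)
      · intro K hK L hL hKL
        obtain ⟨⟨x, hx, rfl⟩, -⟩ := (hS m _).1 (Finset.mem_coe.1 hK)
        obtain ⟨⟨y, hy, rfl⟩, -⟩ := (hS m _).1 (Finset.mem_coe.1 hL)
        have h4 : g (cf m x) ∈ Cmp M δ P (X m : Set V) x := by
          rw [← hcf]
          exact hg1 _ (Finset.mem_coe.1 hK)
        have h5 : g (cf m y) ∈ Cmp M δ P (X m : Set V) y := by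
          rw [← hcf]
          exact hg1 _ (Finset.mem_coe.1 hL)
        rw [← hKL] at h5
        have h6 := cmp_eq h4
        have h7 := cmp_eq h5
        apply Finset.coe_injective
        rw [hcf, hcf, ← h6, ← h7]
    exact h3.trans hY
  -- (3) one cardinality
  obtain ⟨q, hq⟩ : ∃ q : ℕ, ∀ᶠ m in UF, (S m).card = q := by
    have h1 : ∀ᶠ m in UF, ∃ i : Fin (c + 1), (S m).card = i.val := by
      filter_upwards [hc] with m hm
      exact ⟨⟨(S m).card, Nat.lt_succ_of_le hm⟩, rfl⟩
    obtain ⟨i, hi⟩ := uf_exists h1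
    exact ⟨i.val, hi⟩
  refine ⟨q, fun m j => if h : (S m).card = q then
    ((S m).equivFin.symm (Fin.cast h.symm j)).1 else ∅, ?_, ?_⟩
  · obtain ⟨m, hm1, hm2⟩ := (hne.and hq).exists
    rw [← hm2]
    exact Finset.card_pos.2 hm1
  · filter_upwards [hq] with m hm
    have hD : ∀ j : Fin q, (if h : (S m).card = q then
        ((S m).equivFin.symm (Fin.cast h.symm j)).1 else ∅) =
        ((S m).equivFin.symm (Fin.cast hm.symm j)).1 := fun j => dif_pos hm
    have hmem : ∀ j : Fin q, ((S m).equivFin.symm (Fin.cast hm.symm j)).1 ∈ S m :=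
      fun j => ((S m).equivFin.symm (Fin.cast hm.symm j)).2
    refine ⟨?_, ?_, ?_, ?_⟩
    · intro j
      beta_reduce
      rw [hD j]
      obtain ⟨⟨x, hx, hxK⟩, -⟩ := (hS m _).1 (hmem j)
      refine ⟨x, hx, ?_⟩
      rw [← hxK]
      exact hcf m x
    · intro j k hjk
      beta_reduce at hjk
      rw [hD j, hD k] at hjk
      have h1 := (S m).equivFin.symm.injective (Subtype.ext hjk)
      exact Fin.ext (by simpa using congrArg Fin.val h1)
    · intro j
      beta_reduce
      rw [hD j]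
      exact ((hS m _).1 (hmem j)).2
    · intro x hx hRE
      have h1 : cf m x ∈ S m := by
        rw [hS]
        refine ⟨⟨x, hx, rfl⟩, ?_⟩
        rw [hcf]
        exact hRE
      refine ⟨Fin.cast hm ((S m).equivFin ⟨cf m x, h1⟩), ?_⟩
      beta_reduce
      rw [hD]
      have h2 : Fin.cast hm.symm (Fin.cast hm ((S m).equivFin ⟨cf m x, h1⟩)) =
          (S m).equivFin ⟨cf m x, h1⟩ := Fin.ext rfl
      rw [h2, Equiv.symm_apply_apply]
      exact hcf m x

end Pool.Agent.Lib.MP_4fb322_lc_h91x
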