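import Mathlib
import Pool.Agent.Lib.MP_4fb322_lc_h91x.XDefs
import Pool.Agent.Lib.MP_4fb322_lc_h91x.X03
import Pool.Agent.Lib.MP_4fb322_lc_h91x.X04
import Pool.Agent.Lib.MP_4fb322_lc_h91x.X05
import Pool.Agent.Lib.MP_4fb322_lc_h91x.X09
import Pool.Agent.Lib.MP_4fb322_lc_h91x.X10

set_option autoImplicit false

/-!
# Row X13

Every special component has an arrow to a special component. PROOF. Let `X = Xa P a`. Fix `n` with `Spec .. (X n) (D n)`
(almost all n). Let `T₀` be the finite set of cmp_conn for the component `D n i` of `X n`. CLAIM: for every finite `T'`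
with `T ∪ T₀ ∪ (a n ∩ P) ⊆ T' ⊆ P` there is `j` with `∀ᶠ m in UF, RE M T' (D n i) (D m j)`. Proof of the claim:
`Ω = {j | ∀ᶠ m in UF, RE M T' (X j) (X m)} ∈ UF` (wqo_uf); `exists_copies` (ι = ℕ, B = ∅): `g`; `N = P ∪ ⋃ j ∈ Ω, g j '' X j`;
every finite set embeds into `N` (Core.min, `VE M (a j) N` through `g j`, Ω infinite); rooted_full_pins for the constant
sequence: `f` with `RM M T' (X n) N f`; by irr_image `f x ∉ P` on `X n`, so `f` maps `X n` into `⋃ j ∈ Ω, g j '' X j`; `D n i ⊆ X n`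
is connected over `T'` (cmp_conn), so by conn_image `f` maps it into one `g j '' X j`; with RE_of_image
`RE M T' (D n i) (X j)`, so for almost all `m` `RE M T' (D n i) (X m)`, through `f'`; for such `m` with `Spec .. (X m) (D m)` the
image lies in one component (cmp_image), this component contains a copy of `C` over `T` (compose with
`RE M T C (D n i)`), so it is some `D m j` (Spec); uf_exists gives one `j`. Then there is one `j` for all `T'`: otherwise for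
every `j` a finite `T j ⊆ P` with `¬ ∀ᶠ m, RE M (T j) (D n i) (D m j)`; apply the claim to `T' = T ∪ T₀ ∪ (a n ∩ P) ∪ ⋃ T j` and
RE.root. Finally uf_exists over `n`. (About 150 lines.)
-/

namespace Pool.Agent.Lib.MP_4fb322_lc_h91x

open Set Pool.Agent.Lib.MP_4fb322_lc_h70 Pool.Agent.Lib.MP_4fb322_lc_h91
open Pool.Agent.Lib.MP_4fb322_lc_h21

variable {I : Type} {ar : I → ℕ} {V : Type}

private theorem serial_full {M : (i : I) → Set (Fin (ar i) → V)} {δ : I → Prop} {t : ℕ}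
    {P : Set V} {pc : V → ℕ} {a : ℕ → Finset V} (hC : Core2 M δ t P pc a) {Ω : Set ℕ}
    (hΩ : Ω ∈ UF) (g : ℕ → V → V) (hg1 : ∀ i, PE M Set.univ (g i))
    (hg2 : ∀ i, ∀ p ∈ P, g i p = p) (Y : Set V) (hY : Y.Finite) :
    VE M Y (P ∪ ⋃ j ∈ Ω, g j '' (Xa P a j : Set V)) := by
  refine hC.core.min _ (fun n => ?_) Y hY
  obtain ⟨j, hj1, hj2⟩ := ((uf_gt n).and hΩ).exists
  refine ⟨j, hj1.le, g j, PE_mono (hg1 j) (Set.subset_univ _), fun x hx => ?_⟩
  by_cases hxP : x ∈ P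
  · left
    rw [hg2 j x hxP]
    exact hxP
  · right
    refine Set.mem_iUnion₂.2 ⟨j, hj2, x, ?_, rfl⟩
    rw [coe_Xa]
    exact ⟨hx, hxP⟩

private theorem serial_claim {M : (i : I) → Set (Fin (ar i) → V)} {δ : I → Prop} {t : ℕ}
    {P : Set V} {pc : V → ℕ} {a : ℕ → Finset V} (hC : Core2 M δ t P pc a) {T : Set V}
    {C : Finset V} {q : ℕ} (D : ℕ → Fin q → Finset V)
    (hD : ∀ᶠ m in UF, Spec M δ P T C (Xa P a m) (D m)) {S : Finset V} {x₁ : V}
    (hx₁ : x₁ ∈ S) {n : ℕ} (hSX : (S : Set V) ⊆ (Xa P a n : Set V))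
    (hCS : RE M T (C : Set V) (S : Set V)) {T' : Set V} (hT' : T'.Finite) (hTT' : T ⊆ T')
    (hT'P : T' ⊆ P) (haT' : (a n : Set V) ∩ P ⊆ T')
    (hcn : Cn (Rel M δ (T' ∪ (S : Set V))) (S : Set V)) :
    ∃ j, ∀ᶠ m in UF, RE M T' (S : Set V) (D m j : Set V) := by
  have hΩ := wqo_uf hC.core hT' hT'P (Xa P a) (fun m => Xa_sub m)
  set Ω : Set ℕ := {j | ∀ᶠ m in UF, RE M T' (Xa P a j : Set V) (Xa P a m : Set V)} with hΩd
  obtain ⟨g, hg1, hg2, hg3, hg4⟩ := exists_copies hC.core (Xa P a) (fun m => Xa_sub m) ∅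
    Set.finite_empty
  -- a rooted embedding of `Xa P a n`
  obtain ⟨_, f, hf, hfT, hfX⟩ := (rooted_full_pins hC.core
    (fun _ => P ∪ ⋃ j ∈ Ω, g j '' (Xa P a j : Set V))
    (fun Y hY => Filter.Eventually.of_forall fun _ => serial_full hC hΩ g hg1 hg2 Y hY)
    hT' hT'P (Xa P a n : Set V) (Xa P a n).finite_toSet).exists
  have han : (a n : Set V) ⊆ T' ∪ (Xa P a n : Set V) := by
    intro x hx
    by_cases hxP : x ∈ P
    · exact Or.inl (haT' ⟨hx, hxP⟩)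
    · right
      rw [coe_Xa]
      exact ⟨hx, hxP⟩
  have hfP : ∀ x ∈ a n, x ∉ P → f x ∉ P := irr_image hC (PE_mono hf han) (by
    intro x hx hxP
    rw [hfT x (haT' ⟨hx, hxP⟩)]
    exact hxP)
  have hfU : ∀ x ∈ (S : Set V), ∃ j : Ω, f x ∈ g j '' (Xa P a j : Set V) := by
    intro x hx
    have hx' := hSX hx
    have hx2 := hx'
    rw [coe_Xa] at hx'
    rcases hfX x hx2 with h | h
    · exact absurd h (hfP x hx'.1 hx'.2)
    · obtain ⟨j, hj, hxj⟩ := Set.mem_iUnion₂.1 h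
      exact ⟨⟨j, hj⟩, hxj⟩
  have hfS : PE M (T' ∪ (S : Set V)) f := PE_mono hf (Set.union_subset_union_right _ hSX)
  obtain ⟨⟨j, hj⟩, hfj⟩ := conn_image (δ := δ) hcn hx₁ hfS
    (fun j : Ω => g j '' (Xa P a j : Set V)) (by
      rintro ⟨i, hi⟩ ⟨k, hk⟩ hik x ⟨u, hu, rfl⟩ y ⟨v, hv, rfl⟩
      exact (hg4 i k (fun e => hik (Subtype.ext e)) u hu v hv).2) hfU
  have hRM1 : RM M T' (S : Set V) (g j '' (Xa P a j : Set V)) f := ⟨hfS, hfT, hfj⟩
  obtain ⟨h, hh, -⟩ := RE_of_image (A := (Xa P a j : Set V))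
    (PE_mono (hg1 j) (Set.subset_univ (T' ∪ (Xa P a j : Set V))))
    (fun x hx => hg2 j x (hT'P hx))
  have hRE1 : RE M T' (S : Set V) (Xa P a j : Set V) := (hRM1.comp hh).re
  have hj' : ∀ᶠ m in UF, RE M T' (Xa P a j : Set V) (Xa P a m : Set V) := hj
  apply uf_exists
  filter_upwards [hj', hD] with m hm1 hm2
  obtain ⟨f', hf'⟩ := hRE1.trans hm1
  have hcmp := cmp_image (δ := δ) (P := P) hT'P hcn (f := f') hf' (x₀ := x₁) hx₁
  have hRE2 : RE M T' (S : Set V) (Cmp M δ P (Xa P a m : Set V) (f' x₁)) :=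
    ⟨f', hf'.1, hf'.2.1, hcmp⟩
  have hmem : f' x₁ ∈ Xa P a m := hf'.2.2 x₁ hx₁
  obtain ⟨k, hk⟩ := hm2.2.2.2 (f' x₁) hmem (hCS.trans (RE.root hRE2 hTT'))
  refine ⟨k, ?_⟩
  rw [hk]
  exact hRE2

theorem arr_serial {M : (i : I) → Set (Fin (ar i) → V)} {δ : I → Prop} {t : ℕ} {P : Set V}
    {pc : V → ℕ} {a : ℕ → Finset V} (hC : Core2 M δ t P pc a) {T : Set V} (hT : T.Finite)
    (hTP : T ⊆ P) {C : Finset V} {q : ℕ} (D : ℕ → Fin q → Finset V)
    (hD : ∀ᶠ m in UF, Spec M δ P T C (Xa P a m) (D m)) (i : Fin q) :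
    ∃ j, Arr M P (fun n => D n i) (fun n => D n j) := by
  apply uf_exists
  filter_upwards [hD] with n hn
  obtain ⟨x₁, hx₁, hx₁D⟩ := hn.1 i
  obtain ⟨T₀, hT₀, hT₀P, hcn⟩ := cmp_conn (M := M) (δ := δ) (P := P)
    (Xa P a n).finite_toSet (Xa_sub n) x₁
  rw [← hx₁D] at hcn
  have hSX : (D n i : Set V) ⊆ (Xa P a n : Set V) := by
    rw [hx₁D]
    exact fun y hy => cmp_sub hy
  have hx₁S : x₁ ∈ D n i := by
    have : x₁ ∈ (D n i : Set V) := by
      rw [hx₁D]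
      exact cmp_self hx₁
    exact this
  by_contra hno
  push Not at hno
  choose Tj hTj1 hTj2 hTj3 using hno
  have hfin : (T ∪ T₀ ∪ ((a n : Set V) ∩ P) ∪ ⋃ j, Tj j).Finite :=
    ((hT.union hT₀).union ((a n).finite_toSet.inter_of_left P)).union
      (Set.finite_iUnion hTj1)
  obtain ⟨j, hj⟩ := serial_claim hC D hD (S := D n i) hx₁S hSX (hn.2.2.1 i)
    (T' := T ∪ T₀ ∪ ((a n : Set V) ∩ P) ∪ ⋃ j, Tj j) hfin
    (fun x hx => Or.inl (Or.inl (Or.inl hx)))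
    (Set.union_subset (Set.union_subset (Set.union_subset hTP hT₀P) Set.inter_subset_right)
      (Set.iUnion_subset hTj2))
    (fun x hx => Or.inl (Or.inr hx))
    (hcn _ (fun x hx => Or.inl (Or.inl (Or.inr hx)))
      (Set.union_subset (Set.union_subset (Set.union_subset hTP hT₀P) Set.inter_subset_right)
        (Set.iUnion_subset hTj2)))
  obtain ⟨m, hm1, hm2⟩ := (Filter.Eventually.and (hTj3 j) hj).exists
  exact hm1 (RE.root hm2 fun x hx => Or.inr (Set.mem_iUnion.2 ⟨j, hx⟩))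

end Pool.Agent.Lib.MP_4fb322_lc_h91x
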