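import Mathlib
import Pool.Agent.Lib.MP_4fb322_lc_h91x.XDefs

set_option autoImplicit false

/-!
# Row X14

A maximal element. PROOF. Choose `i` with `(Set.ncard {k | r i k})` minimal. For `j` with `r i j`: `{k | r j k} ⊆ {k | r i k}` by
transitivity, so equal by minimality (finite). Take `i'` with `r i i'` (hs). If `r i' k` then `r i k` and
`{l | r k l} = {l | r i l} ∋ i'`, so `r k i'`. (About 30 lines.)
-/

namespace Pool.Agent.Lib.MP_4fb322_lc_h91x

open Set Pool.Agent.Lib.MP_4fb322_lc_h70 Pool.Agent.Lib.MP_4fb322_lc_h91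
open Pool.Agent.Lib.MP_4fb322_lc_h21

variable {I : Type} {ar : I → ℕ} {V : Type}

theorem exists_max_arr {ι : Type} [Finite ι] [Nonempty ι] (r : ι → ι → Prop)
    (htr : ∀ i j k, r i j → r j k → r i k) (hs : ∀ i, ∃ j, r i j) :
    ∃ i, ∀ j, r i j → r j i := by
  classical
  obtain ⟨i, hi⟩ : ∃ i : ι, ∀ j : ι, (Set.ncard {k | r i k}) ≤ (Set.ncard {k | r j k}) := by
    obtain ⟨i, -, hi⟩ := Set.exists_min_image (Set.univ : Set ι)
      (fun j => Set.ncard {k | r j k}) Set.finite_univ Set.univ_nonempty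
    exact ⟨i, fun j => hi j (Set.mem_univ j)⟩
  have hkey : ∀ j, r i j → {k | r j k} = {k | r i k} := by
    intro j hij
    apply Set.eq_of_subset_of_ncard_le
    · intro k hk
      exact htr i j k hij hk
    · exact hi j
    · exact Set.toFinite _
  obtain ⟨i', hi'⟩ := hs i
  refine ⟨i', fun k hk => ?_⟩
  have h1 : r i k := htr i i' k hi' hk
  have h2 : i' ∈ {l | r k l} := by
    rw [hkey k h1]
    exact hi'
  exact h2

end Pool.Agent.Lib.MP_4fb322_lc_h91x
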