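import Mathlib
import Pool.Agent.Lib.MP_4fb322_lc_h91x.XDefs
import Pool.Agent.Lib.MP_4fb322_lc_h91x.X09
import Pool.Agent.Lib.MP_4fb322_lc_h21.W03

set_option autoImplicit false

/-!
# Row X15

Gluing over the special components.
-/

namespace Pool.Agent.Lib.MP_4fb322_lc_h91x

open Set Pool.Agent.Lib.MP_4fb322_lc_h70 Pool.Agent.Lib.MP_4fb322_lc_h91
open Pool.Agent.Lib.MP_4fb322_lc_h21

variable {I : Type} {ar : I → ℕ} {V : Type}

theorem spec_disj {M : (i : I) → Set (Fin (ar i) → V)} {δ : I → Prop} {P T : Set V}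
    {C X : Finset V} {q : ℕ} {D : Fin q → Finset V} (hD : Spec M δ P T C X D) :
    (∀ i, (D i : Set V) ⊆ X) ∧
    (∀ i j, i ≠ j → ∀ x ∈ D i, ∀ y ∈ D j, x ≠ y ∧ ¬ Rel M δ (P ∪ (X : Set V)) x y) ∧
    ∀ i, ∀ x ∈ D i, ∀ y ∈ X, y ∉ D i → ¬ Rel M δ (P ∪ (X : Set V)) x y := by
  obtain ⟨h1, h2, -, -⟩ := hD
  have hsub : ∀ i, (D i : Set V) ⊆ X := by
    intro i y hy
    obtain ⟨x, -, hx⟩ := h1 i
    rw [hx] at hy
    exact cmp_sub hy
  have hstep : ∀ i, ∀ x ∈ D i, ∀ y ∈ X, Rel M δ (P ∪ (X : Set V)) x y → y ∈ D i := by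
    intro i x hx y hy hxy
    obtain ⟨z, -, hz⟩ := h1 i
    have hx' : x ∈ (D i : Set V) := hx
    rw [hz] at hx'
    have h3 := cmp_step hx' hy hxy
    rw [← hz] at h3
    exact h3
  have heq : ∀ i j, ∀ x ∈ D i, x ∈ D j → i = j := by
    intro i j x hi hj
    obtain ⟨z, -, hz⟩ := h1 i
    obtain ⟨w, -, hw⟩ := h1 j
    have hi' : x ∈ (D i : Set V) := hi
    have hj' : x ∈ (D j : Set V) := hj
    rw [hz] at hi'
    rw [hw] at hj'
    have h4 := cmp_eq hi'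
    have h5 := cmp_eq hj'
    refine h2 (Finset.coe_injective ?_)
    rw [hz, hw, ← h4, h5]
  refine ⟨hsub, fun i j hij x hx y hy => ⟨?_, fun hxy => ?_⟩, fun i x hx y hy hyi hxy =>
    hyi (hstep i x hx y hy hxy)⟩
  · rintro rfl
    exact hij (heq i j x hx hy)
  · exact hij (heq i j y (hstep i x hx y (hsub j hy) hxy) hy)

theorem glue_spec {M : (i : I) → Set (Fin (ar i) → V)} {δ : I → Prop} {P T U : Set V}
    (hUP : U ⊆ P) {C X X' : Finset V} (hX : (X : Set V) ⊆ Pᶜ) (hX' : (X' : Set V) ⊆ Pᶜ) {q : ℕ}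
    {D D' : Fin q → Finset V} (hD : Spec M δ P T C X D) (hD' : Spec M δ P T C X' D')
    (A : Finset (Fin q)) (h : ∀ l ∈ A, RE M U (D l : Set V) (D' l : Set V)) :
    RE M U (⋃ l ∈ A, (D l : Set V)) (⋃ l ∈ A, (D' l : Set V)) := by
  classical
  obtain ⟨hs, hdj, -⟩ := spec_disj hD
  obtain ⟨hs', hdj', -⟩ := spec_disj hD'
  induction A using Finset.induction_on with
  | empty =>
    simp only [Finset.notMem_empty, iUnion_of_empty, iUnion_empty]
    exact RE.refl U ∅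
  | insert l A hl ih =>
    obtain ⟨f, hf, hfU, hfD⟩ := h l (Finset.mem_insert_self l A)
    obtain ⟨g, hg, hgU, hgD⟩ := ih fun l' hl' => h l' (Finset.mem_insert_of_mem hl')
    have hne : ∀ l' ∈ A, l ≠ l' := fun l' hl' e => hl (e ▸ hl')
    have hmem : ∀ {E : Fin q → Finset V} {y : V}, y ∈ (⋃ l' ∈ A, (E l' : Set V)) ↔
        ∃ l' ∈ A, y ∈ E l' := by
      intro E y
      simp
    have hgD' : ∀ y ∈ (⋃ l' ∈ A, (D l' : Set V)), ∃ l' ∈ A, g y ∈ D' l' :=
      fun y hy => hmem.1 (hgD y hy)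
    have hsubD : ∀ {E : Fin q → Finset V} {Z : Finset V}, (∀ i, (E i : Set V) ⊆ Z) →
        (⋃ l' ∈ A, (E l' : Set V)) ⊆ Z := by
      intro E Z hE
      exact iUnion₂_subset fun l' _ => hE l'
    have e1 : Disjoint (D l : Set V) (⋃ l' ∈ A, (D l' : Set V)) := by
      rw [Set.disjoint_left]
      intro x hx hx'
      obtain ⟨l', hl', hxl'⟩ := hmem.1 hx'
      exact (hdj l l' (hne l' hl') x hx x hxl').1 rfl
    have e2 : Disjoint U (D l : Set V) := by
      rw [Set.disjoint_left]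
      intro x hx hx'
      exact hX (hs l hx') (hUP hx)
    have e3 : Disjoint U (⋃ l' ∈ A, (D l' : Set V)) := by
      rw [Set.disjoint_left]
      intro x hx hx'
      exact hX (hsubD hs hx') (hUP hx)
    have e4 : ∀ x ∈ (D l : Set V), ∀ y ∈ (⋃ l' ∈ A, (D l' : Set V)),
        ¬ Rel M δ (U ∪ ((D l : Set V) ∪ ⋃ l' ∈ A, (D l' : Set V))) x y := by
      intro x hx y hy hxy
      obtain ⟨l', hl', hyl'⟩ := hmem.1 hy
      refine (hdj l l' (hne l' hl') x hx y hyl').2 (hxy.mono ?_)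
      exact union_subset_union hUP (union_subset (hs l) (hsubD hs))
    have e5 : ∀ x ∈ (D l : Set V), ∀ y ∈ (⋃ l' ∈ A, (D l' : Set V)), f x ≠ g y ∧
        ¬ Rel M δ (U ∪ (f '' (D l : Set V) ∪ g '' ⋃ l' ∈ A, (D l' : Set V))) (f x) (g y) := by
      intro x hx y hy
      obtain ⟨l', hl', hyl'⟩ := hgD' y hy
      have h6 := hdj' l l' (hne l' hl') (f x) (hfD x hx) (g y) hyl'
      refine ⟨h6.1, fun hxy => h6.2 (hxy.mono ?_)⟩
      refine union_subset_union hUP (union_subset ?_ ?_)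
      · rintro _ ⟨z, hz, rfl⟩
        exact hs' l (hfD z hz)
      · rintro _ ⟨z, hz, rfl⟩
        exact hsubD hs' (hgD z hz)
    obtain ⟨k, hk, hkU, hk1, hk2⟩ := glue_rooted (δ := δ) hf hfU hg hgU e1 e2 e3 e4 e5
    rw [Finset.set_biUnion_insert, Finset.set_biUnion_insert]
    refine ⟨k, hk, hkU, fun y hy => ?_⟩
    rcases hy with hy | hy
    · left
      rw [hk1 y hy]
      exact hfD y hy
    · right
      rw [hk2 y hy]
      exact hgD y hy

end Pool.Agent.Lib.MP_4fb322_lc_h91x
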