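import Mathlib
import Pool.Agent.Lib.MP_4fb322_lc_h91x.XDefs
import Pool.Agent.Lib.MP_4fb322_lc_h91x.X02
import Pool.Agent.Lib.MP_4fb322_lc_h91x.X15
import Pool.Agent.Lib.MP_4fb322_lc_h21.W03

set_option autoImplicit false

/-!
# Row X16

Fullness with shared special components. PROOF. `min_seq` with `Ω`: for `j ∈ Ω` and almost all `m` we show `VE M (a j) (N m)`.
Let `U = a j ∩ P` (finite, `⊆ P`), `X = Xa P a`, `S m = ⋃ l ∈ A, D m l`. By harr (finitely many l ∈ A) and glue_spec, for almost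
all `m` there is `f` with `RM M U (S j) (S m) f`. Compose with `g (inl m)` (embedding of everything, fixes `P ⊇ U`). Let
`Y1 = S j`, `Y2 = X j \ S j` and use glue_rooted (W03) with `g (inl m) ∘ f` and `g (inr j)`: source: `Y1`, `Y2` are not
adjacent in `P ∪ X j` (spec_disj (3)); target: `g (inl m) '' X m` and `g (inr j) '' (X j \ S j)` are disjoint and not adjacent
(hcop, Rel.adj). The glued map fixes `U`, maps `X j = Y1 ∪ Y2` into `N m`; it is an embedding of `U ∪ X j = a j`.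
(About 100 lines.)
-/

namespace Pool.Agent.Lib.MP_4fb322_lc_h91x

open Set Pool.Agent.Lib.MP_4fb322_lc_h70 Pool.Agent.Lib.MP_4fb322_lc_h91
open Pool.Agent.Lib.MP_4fb322_lc_h21

variable {I : Type} {ar : I → ℕ} {V : Type}

theorem shared_full [Finite I] {M : (i : I) → Set (Fin (ar i) → V)} {δ : I → Prop} {t : ℕ}
    {P : Set V} {pc : V → ℕ} {a : ℕ → Finset V} (hC : Core2 M δ t P pc a) {T : Set V}
    {C : Finset V} {q : ℕ} (D : ℕ → Fin q → Finset V) (A : Finset (Fin q)) (Ω : Set ℕ)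
    (hΩ : Ω ∈ UF) (hΩD : ∀ j ∈ Ω, Spec M δ P T C (Xa P a j) (D j))
    (hD : ∀ᶠ m in UF, Spec M δ P T C (Xa P a m) (D m))
    (harr : ∀ j ∈ Ω, ∀ l ∈ A, ∀ T' : Set V, T'.Finite → T' ⊆ P →
      ∀ᶠ m in UF, RE M T' (D j l : Set V) (D m l : Set V))
    (g : ℕ ⊕ ℕ → V → V) (hg : ∀ i, PE M Set.univ (g i)) (hgP : ∀ i, ∀ p ∈ P, g i p = p)
    (hcop : ∀ m j, ∀ x ∈ Xa P a m, ∀ y ∈ Xa P a j, y ∉ (⋃ l ∈ A, (D j l : Set V)) →
      g (Sum.inl m) x ≠ g (Sum.inr j) y ∧ ¬ Adj M δ (g (Sum.inl m) x) (g (Sum.inr j) y))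
    (Y : Set V) (hY : Y.Finite) :
    ∀ᶠ m in UF, VE M Y (P ∪ (g (Sum.inl m) '' (Xa P a m : Set V) ∪
      ⋃ j ∈ Ω, g (Sum.inr j) '' ((Xa P a j : Set V) \ ⋃ l ∈ A, (D j l : Set V)))) := by
  refine min_seq hC _ Ω (uf_infinite hΩ) ?_ Y hY
  intro j hj
  have hU : ((a j : Set V) ∩ P).Finite := (Finset.finite_toSet (a j)).inter_of_left P
  have hall : ∀ᶠ m in UF, ∀ l ∈ A,
      RE M ((a j : Set V) ∩ P) (D j l : Set V) (D m l : Set V) := by
    rw [Filter.eventually_all_finset]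
    intro l hl
    exact harr j hj l hl _ hU inter_subset_right
  filter_upwards [hall, hD] with m hm hDm
  set U : Set V := (a j : Set V) ∩ P with hUdef
  set S : Set V := ⋃ l ∈ A, (D j l : Set V) with hS
  obtain ⟨hs1, hs2, hs3⟩ := spec_disj (hΩD j hj)
  obtain ⟨ht1, -, -⟩ := spec_disj hDm
  have hSX : S ⊆ (Xa P a j : Set V) := iUnion₂_subset fun l _ => hs1 l
  obtain ⟨f, hf, hfU, hfS⟩ := glue_spec (inter_subset_right : U ⊆ P) (Xa_sub j) (Xa_sub m)
    (hΩD j hj) hDm A hm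
  have hfX : ∀ x ∈ S, f x ∈ Xa P a m := by
    intro x hx
    have h1 := hfS x hx
    rw [mem_iUnion₂] at h1
    obtain ⟨l, -, h2⟩ := h1
    exact ht1 l h2
  obtain ⟨h, hh, hhU, hh1, hh2⟩ := glue_rooted (δ := δ) (T := U) (Y1 := S)
    (Y2 := (Xa P a j : Set V) \ S) (f := g (Sum.inl m) ∘ f) (g := g (Sum.inr j))
    (PE_comp hf (hg _) fun _ _ => mem_univ _)
    (fun x hx => by rw [Function.comp_apply, hfU x hx, hgP _ x hx.2])
    (PE_mono (hg _) (subset_univ _)) (fun x hx => hgP _ x hx.2)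
    disjoint_sdiff_right
    (by
      rw [Set.disjoint_left]
      intro x hx hxS
      exact Xa_sub j (hSX hxS) hx.2)
    (by
      rw [Set.disjoint_left]
      intro x hx hxS
      exact Xa_sub j hxS.1 hx.2)
    (by
      intro x hx y hy hxy
      rw [hS, mem_iUnion₂] at hx
      obtain ⟨l, hl, hxl⟩ := hx
      refine hs3 l x hxl y hy.1 (fun hyl => hy.2 ?_) (hxy.mono ?_)
      · rw [hS, mem_iUnion₂]
        exact ⟨l, hl, hyl⟩
      · rintro z (hz | hz | hz)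
        · exact Or.inl hz.2
        · exact Or.inr (hSX hz)
        · exact Or.inr hz.1)
    (by
      intro x hx y hy
      obtain ⟨h1, h2⟩ := hcop m j (f x) (hfX x hx) y hy.1 hy.2
      exact ⟨h1, fun h3 => h2 h3.adj⟩)
  refine ⟨h, PE_mono hh ?_, ?_⟩
  · intro x hx
    by_cases hxP : x ∈ P
    · exact Or.inl ⟨hx, hxP⟩
    · by_cases hxS : x ∈ S
      · exact Or.inr (Or.inl hxS)
      · exact Or.inr (Or.inr ⟨mem_Xa.2 ⟨hx, hxP⟩, hxS⟩)
  · intro x hx
    by_cases hxP : x ∈ P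
    · rw [hhU x ⟨hx, hxP⟩]
      exact Or.inl hxP
    · by_cases hxS : x ∈ S
      · rw [hh1 x hxS]
        exact Or.inr (Or.inl ⟨f x, hfX x hxS, rfl⟩)
      · have hxX : x ∈ (Xa P a j : Set V) \ S := ⟨mem_Xa.2 ⟨hx, hxP⟩, hxS⟩
        rw [hh2 x hxX]
        refine Or.inr (Or.inr ?_)
        rw [mem_iUnion₂]
        exact ⟨j, hj, x, hxX, rfl⟩

end Pool.Agent.Lib.MP_4fb322_lc_h91x
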