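import Mathlib
import Pool.Agent.Lib.MP_4fb322_lc_h91x.XDefs
import Pool.Agent.Lib.MP_4fb322_lc_h91x.X03
import Pool.Agent.Lib.MP_4fb322_lc_h91x.X04
import Pool.Agent.Lib.MP_4fb322_lc_h91x.X05
import Pool.Agent.Lib.MP_4fb322_lc_h91x.X09
import Pool.Agent.Lib.MP_4fb322_lc_h91x.X10
import Pool.Agent.Lib.MP_4fb322_lc_h91x.X13
import Pool.Agent.Lib.MP_4fb322_lc_h91x.X14
import Pool.Agent.Lib.MP_4fb322_lc_h91x.X15
import Pool.Agent.Lib.MP_4fb322_lc_h91x.X16

set_option autoImplicit false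

/-!
# Row X17

The contradiction. PROOF. Let `X = Xa P a`. `exists_max_arr` for `r i j := Arr M P (D · i) (D · j)` on `Fin q` (Arr.trans,
arr_serial): `i₀` with `Arr i₀ j → Arr j i₀`. `A` = the finset of the `j` with `Arr i₀ j`; then `Arr j j` for `j ∈ A`. Let `Ω₁` be the
set of the `n` with `Spec .. (X n) (D n)` and, for all `j ∈ A`, all finite `T' ⊆ P`: `∀ᶠ m, RE M T' (D n j) (D m j)`; `Ω₁ ∈ UF`.
CLAIM: for `n ∈ Ω₁` and every finite `T'` with `T ∪ T₀ ∪ (a n ∩ P) ⊆ T' ⊆ P` (`T₀` from cmp_conn for the component `D n i₀` of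
`X n`) there is `l ∉ A` with `∀ᶠ m in UF, RE M T' (D n i₀) (D m l)`. From the claim: as in arr_serial one `l ∉ A` works for all
`T'` (RE.root), then uf_exists over `n` gives `Arr i₀ l` with `l ∉ A`, contradiction. PROOF OF THE CLAIM. hnr gives `c` such that
for almost all `m` there is `Y`, `Y.card ≤ c`, `¬ RE M T C (X m \ Y)`. `Ω = {j ∈ Ω₁ | ∀ l, ∀ᶠ m, RE M T' (D j l) (D m l)}` is in UF
(wqo_uf for the sequences `D m l`, made `∅` where Spec fails). `exists_copies` for `ι = ℕ ⊕ ℕ`, `inl m ↦ X m`,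
`inr j ↦ X j \ ⋃ l ∈ A, D j l`, B = ∅: `g`. `exists_copies` for `ι = Fin (c+1)`, constant `X n`: `k`; `G = ⋃ s, k s '' X n` finite.
shared_full and rooted_full_pins: for almost all `m` there is `f` with `RM M T' G (N m) f`. Take such an `m` which also
satisfies Spec and the property of `c`. For every `s`: `f ∘ k s` is an embedding of `T' ∪ X n ⊇ a n`, identity on `a n ∩ P`, so
by irr_image it maps `X n` outside `P`, i.e. into `g (inl m) '' X m ∪ ⋃ j ∈ Ω, g (inr j) '' W j`. `D n i₀` is connected over `T'`,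
so (conn_image; parts indexed by Option ℕ or ℕ ⊕ ℕ) its image under `f ∘ k s` lies in one part. If for all `s` it were the
part `g (inl m) '' X m`: composing with `RE M T C (D n i₀)` and the inverse of `g (inl m)` get `c + 1` rooted embeddings of
`C` into `X m` with pairwise disjoint images (the sets `k s '' X n` are disjoint, `f` is injective on `G`); one of them misses
`Y` (Y.card ≤ c): contradiction. So for some `s` the image lies in `g (inr j) '' W j`, `j ∈ Ω`: `RE M T' (D n i₀) (W j)`; by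
cmp_image the image lies in one component of `X j`, which contains a copy of `C`, so it is `D j l` (Spec), and `l ∉ A` because
it contains a point of `W j` (D n i₀ is nonempty). So `RE M T' (D n i₀) (D j l)`, and `j ∈ Ω` gives the claim.
(About 250 lines.)
-/

namespace Pool.Agent.Lib.MP_4fb322_lc_h91x

open Set Pool.Agent.Lib.MP_4fb322_lc_h70 Pool.Agent.Lib.MP_4fb322_lc_h91
open Pool.Agent.Lib.MP_4fb322_lc_h21

variable {I : Type} {ar : I → ℕ} {V : Type}

private theorem claim_beta [Finite I] {M : (i : I) → Set (Fin (ar i) → V)} {δ : I → Prop}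
    {t : ℕ} {P : Set V} {pc : V → ℕ} {a : ℕ → Finset V} (hC : Core2 M δ t P pc a) {T : Set V}
    {C : Finset V} (hCne : C.Nonempty) {c : ℕ}
    (hc : ∀ᶠ m in UF, ∃ Y : Finset V, Y.card ≤ c ∧
      ¬ RE M T (C : Set V) ((Xa P a m : Set V) \ (Y : Set V))) {q : ℕ}
    (D : ℕ → Fin q → Finset V) (hD : ∀ᶠ m in UF, Spec M δ P T C (Xa P a m) (D m))
    (A : Finset (Fin q)) (Ω₁ : Set ℕ) (hΩ₁ : Ω₁ ∈ UF)
    (hΩS : ∀ j ∈ Ω₁, Spec M δ P T C (Xa P a j) (D j))
    (hΩA : ∀ j ∈ Ω₁, ∀ l ∈ A, ∀ T' : Set V, T'.Finite → T' ⊆ P →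
      ∀ᶠ m in UF, RE M T' (D j l : Set V) (D m l : Set V))
    {n : ℕ} (hn : n ∈ Ω₁) (i₀ : Fin q) {T' : Set V} (hT'f : T'.Finite) (hT'P : T' ⊆ P)
    (hTT' : T ⊆ T') (hanT' : (a n : Set V) ∩ P ⊆ T')
    (hconn : Cn (Rel M δ (T' ∪ (D n i₀ : Set V))) (D n i₀ : Set V)) :
    ∃ l, l ∉ A ∧ ∀ᶠ m in UF, RE M T' (D n i₀ : Set V) (D m l : Set V) := by
  classical
  have hCore := hC.core
  -- the component and its properties
  have hSn := hΩS n hn
  have hSX : (D n i₀ : Set V) ⊆ (Xa P a n : Set V) := (spec_disj hSn).1 i₀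
  obtain ⟨e, he⟩ := hSn.2.2.1 i₀
  obtain ⟨c₀, hc₀⟩ := hCne
  have hx₀ : e c₀ ∈ (D n i₀ : Set V) := he.2.2 c₀ hc₀
  set x₀ := e c₀ with hx₀def
  -- components are small
  have hDP : ∀ m, Spec M δ P T C (Xa P a m) (D m) → ∀ l, (D m l : Set V) ⊆ Pᶜ := fun m hm l =>
    ((spec_disj hm).1 l).trans (Xa_sub m)
  -- the set of good indices
  have hwqo : ∀ l : Fin q, ∀ᶠ j in UF, ∀ᶠ m in UF, RE M T' (D j l : Set V) (D m l : Set V) := by
    intro l
    let Z : ℕ → Finset V := fun m => if Spec M δ P T C (Xa P a m) (D m) then D m l else ∅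
    have hZ : ∀ m, (Z m : Set V) ⊆ Pᶜ := by
      intro m
      by_cases h : Spec M δ P T C (Xa P a m) (D m)
      · simp only [Z, h, if_true]
        exact hDP m h l
      · simp only [Z, h, if_false, Finset.coe_empty, Set.empty_subset]
    have h1 := wqo_uf hCore hT'f hT'P Z hZ
    filter_upwards [h1, hD] with j hj hjS
    filter_upwards [hj, hD] with m hm hmS
    simpa only [Z, hjS, hmS, if_true] using hm
  set Ω : Set ℕ := {j | j ∈ Ω₁ ∧ ∀ l : Fin q, ∀ᶠ m in UF,
    RE M T' (D j l : Set V) (D m l : Set V)} with hΩdef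
  have hΩ : Ω ∈ UF := by
    have h1 : ∀ᶠ j in UF, ∀ l : Fin q, ∀ᶠ m in UF, RE M T' (D j l : Set V) (D m l : Set V) :=
      Filter.eventually_all.2 hwqo
    have h2 : ∀ᶠ j in UF, j ∈ Ω₁ := hΩ₁
    exact h2.and h1
  -- the copies
  let W : ℕ → Finset V := fun j => (Xa P a j).filter (fun x => x ∉ A.biUnion (D j))
  have hWset : ∀ j, (W j : Set V) = (Xa P a j : Set V) \ ⋃ l ∈ A, (D j l : Set V) := by
    intro j
    ext x
    simp [W]
  obtain ⟨g, hg, hgP, hgout, hgsep⟩ := exists_copies hCore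
    (Sum.elim (fun m => Xa P a m) (fun j => W j)) (by
      rintro (m | j)
      · exact Xa_sub m
      · intro x hx
        have hx' : x ∈ W j := hx
        exact Xa_sub j (Finset.mem_filter.1 hx').1) ∅ Set.finite_empty
  obtain ⟨k, hk, hkP, hkout, hksep⟩ := exists_copies hCore
    (fun _ : Fin (c + 1) => Xa P a n) (fun _ => Xa_sub n) ∅ Set.finite_empty
  set G : Set V := ⋃ s : Fin (c + 1), k s '' (Xa P a n : Set V) with hG
  have hGfin : G.Finite := Set.finite_iUnion fun s => (Finset.finite_toSet _).image _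
  let N : ℕ → Set V := fun m => P ∪ (g (Sum.inl m) '' (Xa P a m : Set V) ∪
    ⋃ j ∈ Ω, g (Sum.inr j) '' ((Xa P a j : Set V) \ ⋃ l ∈ A, (D j l : Set V)))
  have hN : ∀ Y : Set V, Y.Finite → ∀ᶠ m in UF, VE M Y (N m) := by
    intro Y hY
    refine shared_full hC D A Ω hΩ (fun j hj => hΩS j hj.1) hD (fun j hj l hl => hΩA j hj.1 l hl)
      g hg hgP ?_ Y hY
    intro m j x hx y hy hyA
    have hy' : y ∈ W j := by
      have : y ∈ (W j : Set V) := by
        rw [hWset]
        exact ⟨hy, hyA⟩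
      exact this
    exact hgsep (Sum.inl m) (Sum.inr j) (by simp) x hx y hy'
  have hfull := rooted_full_pins hCore N hN hT'f hT'P G hGfin
  obtain ⟨m, hm1, hmS, Y, hYc, hYno⟩ := (hfull.and (hD.and hc)).exists
  obtain ⟨f, hf, hfT, hfN⟩ := hm1
  -- the maps `f ∘ k s`
  have hPE : ∀ s, PE M (T' ∪ (Xa P a n : Set V)) (f ∘ k s) := by
    intro s
    refine PE_comp (PE_mono (hk s) (Set.subset_univ _)) hf ?_
    rintro y (hy | hy)
    · rw [hkP s y (hT'P hy)]
      exact Or.inl hy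
    · exact Or.inr (Set.mem_iUnion.2 ⟨s, y, hy, rfl⟩)
  have hfix : ∀ s, ∀ x ∈ T', (f ∘ k s) x = x := by
    intro s x hx
    rw [Function.comp_apply, hkP s x (hT'P hx), hfT x hx]
  have hout : ∀ s, ∀ x ∈ (Xa P a n : Set V), (f ∘ k s) x ∉ P := by
    intro s x hx
    rw [coe_Xa] at hx
    refine irr_image hC (j := n) (PE_mono (hPE s) ?_) ?_ x hx.1 hx.2
    · intro y hy
      by_cases hyP : y ∈ P
      · exact Or.inl (hanT' ⟨hy, hyP⟩)
      · right
        rw [coe_Xa]
        exact ⟨hy, hyP⟩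
    · intro y hy hyP
      rw [hfix s y (hanT' ⟨hy, hyP⟩)]
      exact hyP
  -- the parts
  let part : Option ℕ → Set V := fun i => match i with
    | none => g (Sum.inl m) '' (Xa P a m : Set V)
    | some j => {y | j ∈ Ω ∧ y ∈ g (Sum.inr j) '' (W j : Set V)}
  have hpart : ∀ i i', i ≠ i' → ∀ x ∈ part i, ∀ y ∈ part i', ¬ Adj M δ x y := by
    rintro (_ | j) (_ | j') hne x hx y hy
    · exact absurd rfl hne
    · obtain ⟨x', hx', rfl⟩ := hx
      obtain ⟨-, y', hy', rfl⟩ := hy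
      exact (hgsep (Sum.inl m) (Sum.inr j') (by simp) x' hx' y' hy').2
    · obtain ⟨-, x', hx', rfl⟩ := hx
      obtain ⟨y', hy', rfl⟩ := hy
      exact (hgsep (Sum.inr j) (Sum.inl m) (by simp) x' hx' y' hy').2
    · obtain ⟨-, x', hx', rfl⟩ := hx
      obtain ⟨-, y', hy', rfl⟩ := hy
      exact (hgsep (Sum.inr j) (Sum.inr j') (by
        intro h
        apply hne
        rw [Sum.inr.injEq] at h
        rw [h]) x' hx' y' hy').2
  have hcov : ∀ s, ∀ x ∈ (Xa P a n : Set V), ∃ i, (f ∘ k s) x ∈ part i := by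
    intro s x hx
    have h1 : (f ∘ k s) x ∈ N m := hfN _ (Set.mem_iUnion.2 ⟨s, x, hx, rfl⟩)
    rcases h1 with h1 | h1 | h1
    · exact absurd h1 (hout s x hx)
    · exact ⟨none, h1⟩
    · simp only [Set.mem_iUnion] at h1
      obtain ⟨j, hj, h2⟩ := h1
      refine ⟨some j, hj, ?_⟩
      rw [hWset]
      exact h2
  have hone : ∀ s, ∃ i, ∀ x ∈ (D n i₀ : Set V), (f ∘ k s) x ∈ part i := by
    intro s
    refine conn_image hconn hx₀ (PE_mono (hPE s) (Set.union_subset_union_right _ hSX)) part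
      hpart ?_
    intro x hx
    exact hcov s x (hSX hx)
  choose idx hidx using hone
  have hRM : ∀ s, ∀ {X : Set V}, (∀ x ∈ (D n i₀ : Set V), (f ∘ k s) x ∈ X) →
      RM M T' (D n i₀ : Set V) X (f ∘ k s) := fun s X h =>
    ⟨PE_mono (hPE s) (Set.union_subset_union_right _ hSX), hfix s, h⟩
  by_cases hall : ∀ s, idx s = none
  · -- too many disjoint copies of `C` in `X m`
    exfalso
    obtain ⟨h, hh1, hh2⟩ := RE_of_image (M := M) (g := g (Sum.inl m)) (T := T')
      (A := (Xa P a m : Set V)) (PE_mono (hg _) (Set.subset_univ _))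
      (fun x hx => hgP _ x (hT'P hx))
    have hmap : ∀ s, ∀ x ∈ (D n i₀ : Set V), (f ∘ k s) x ∈ g (Sum.inl m) '' (Xa P a m : Set V) := by
      intro s x hx
      have := hidx s x hx
      rw [hall s] at this
      exact this
    have hcomp : ∀ s, RM M T' (D n i₀ : Set V) (Xa P a m : Set V) (h ∘ (f ∘ k s)) := fun s =>
      (hRM s (hmap s)).comp hh1
    have hcompC : ∀ s, RM M T (C : Set V) (Xa P a m : Set V) ((h ∘ (f ∘ k s)) ∘ e) := by
      intro s
      refine RM.comp he ⟨PE_mono (hcomp s).1 (Set.union_subset_union_left _ hTT'),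
        fun x hx => (hcomp s).2.1 x (hTT' hx), (hcomp s).2.2⟩
    have hmeet : ∀ s, ∃ y ∈ Y, ∃ x ∈ C, ((h ∘ (f ∘ k s)) ∘ e) x = y := by
      intro s
      by_contra hno
      push Not at hno
      apply hYno
      refine ⟨(h ∘ (f ∘ k s)) ∘ e, (hcompC s).1, (hcompC s).2.1, fun x hx => ?_⟩
      refine ⟨(hcompC s).2.2 x hx, fun hxY => hno _ hxY x hx rfl⟩
    choose y hyY x hxC hxy using hmeet
    have hinj : Function.Injective y := by
      intro s s' hss
      by_contra hne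
      have hex : e (x s) ∈ (D n i₀ : Set V) := he.2.2 _ (hxC s)
      have hex' : e (x s') ∈ (D n i₀ : Set V) := he.2.2 _ (hxC s')
      obtain ⟨u, hu, hu'⟩ := hmap s _ hex
      obtain ⟨v, hv, hv'⟩ := hmap s' _ hex'
      have h1 : u = v := by
        have e1 : y s = u := by
          rw [← hxy s]
          change h ((f ∘ k s) (e (x s))) = u
          rw [← hu', hh2 u hu]
        have e2 : y s' = v := by
          rw [← hxy s']
          change h ((f ∘ k s') (e (x s'))) = v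
          rw [← hv', hh2 v hv]
        rw [← e1, ← e2, hss]
      have h2 : (f ∘ k s) (e (x s)) = (f ∘ k s') (e (x s')) := by rw [← hu', ← hv', h1]
      have h3 : k s (e (x s)) = k s' (e (x s')) := by
        apply hf.1 _ _ h2
        · exact Or.inr (Set.mem_iUnion.2 ⟨s, _, hSX hex, rfl⟩)
        · exact Or.inr (Set.mem_iUnion.2 ⟨s', _, hSX hex', rfl⟩)
      exact (hksep s s' hne _ (hSX hex) _ (hSX hex')).1 h3
    have h4 : (Finset.univ : Finset (Fin (c + 1))).card ≤ Y.card :=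
      Finset.card_le_card_of_injOn y (fun s _ => hyY s) hinj.injOn
    rw [Finset.card_univ, Fintype.card_fin] at h4
    omega
  · push Not at hall
    obtain ⟨s, hs⟩ := hall
    obtain ⟨j, hj⟩ := Option.ne_none_iff_exists'.1 hs
    have hmap : ∀ x ∈ (D n i₀ : Set V), j ∈ Ω ∧ (f ∘ k s) x ∈ g (Sum.inr j) '' (W j : Set V) := by
      intro x hx
      have := hidx s x hx
      rw [hj] at this
      exact this
    have hjΩ : j ∈ Ω := (hmap _ hx₀).1
    obtain ⟨h, hh1, hh2⟩ := RE_of_image (M := M) (g := g (Sum.inr j)) (T := T')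
      (A := (W j : Set V)) (PE_mono (hg _) (Set.subset_univ _))
      (fun x hx => hgP _ x (hT'P hx))
    have hF : RM M T' (D n i₀ : Set V) (W j : Set V) (h ∘ (f ∘ k s)) :=
      (hRM s (fun x hx => (hmap x hx).2)).comp hh1
    have hWX : (W j : Set V) ⊆ (Xa P a j : Set V) := by
      rw [hWset]
      exact Set.sdiff_subset
    have hFX : RM M T' (D n i₀ : Set V) (Xa P a j : Set V) (h ∘ (f ∘ k s)) :=
      ⟨hF.1, hF.2.1, fun x hx => hWX (hF.2.2 x hx)⟩
    set F := h ∘ (f ∘ k s) with hFdef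
    have hcmp := cmp_image hT'P hconn hFX hx₀
    have hSj := hΩS j hjΩ.1
    have hREK : RE M T' (D n i₀ : Set V) (Cmp M δ P (Xa P a j : Set V) (F x₀)) :=
      ⟨F, hFX.1, hFX.2.1, hcmp⟩
    obtain ⟨l, hl⟩ := hSj.2.2.2 (F x₀) (hFX.2.2 x₀ hx₀)
      ((hSn.2.2.1 i₀).trans (RE.root hREK hTT'))
    refine ⟨l, ?_, ?_⟩
    · intro hlA
      have h1 : F x₀ ∈ (W j : Set V) := hF.2.2 x₀ hx₀
      rw [hWset] at h1
      apply h1.2
      simp only [Set.mem_iUnion]
      refine ⟨l, hlA, ?_⟩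
      rw [hl]
      exact cmp_self (hFX.2.2 x₀ hx₀)
    · rw [← hl] at hREK
      filter_upwards [hjΩ.2 l] with m' hm'
      exact hREK.trans hm'

theorem step_beta [Finite I] {M : (i : I) → Set (Fin (ar i) → V)} {δ : I → Prop} {t : ℕ}
    {P : Set V} {pc : V → ℕ} {a : ℕ → Finset V} (hC : Core2 M δ t P pc a) {T : Set V}
    (hT : T.Finite) (hTP : T ⊆ P) {C : Finset V} (hCne : C.Nonempty)
    (hnr : ¬ Robust M T (Xa P a) (C : Set V)) {q : ℕ} (hq : 0 < q)
    (D : ℕ → Fin q → Finset V) (hD : ∀ᶠ m in UF, Spec M δ P T C (Xa P a m) (D m)) :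
    False := by
  classical
  obtain ⟨c, hc⟩ : ∃ c : ℕ, ∀ᶠ m in UF, ∃ Y : Finset V, Y.card ≤ c ∧
      ¬ RE M T (C : Set V) ((Xa P a m : Set V) \ (Y : Set V)) := by
    by_contra hno
    apply hnr
    intro c
    by_contra h
    rw [uf_not] at h
    apply hno
    refine ⟨c, h.mono ?_⟩
    intro m hm
    push Not at hm
    exact hm
  have hne : Nonempty (Fin q) := ⟨⟨0, hq⟩⟩
  obtain ⟨i₀, hi₀⟩ := exists_max_arr
    (fun i j : Fin q => Arr M P (fun n => D n i) (fun n => D n j))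
    (fun i j k h h' => h.trans h') (fun i => arr_serial hC hT hTP D hD i)
  set A : Finset (Fin q) := Finset.univ.filter
    (fun j => Arr M P (fun n => D n i₀) (fun n => D n j)) with hA
  have hAA : ∀ j ∈ A, Arr M P (fun n => D n j) (fun n => D n j) := fun j hj => by
    have h1 : Arr M P (fun n => D n i₀) (fun n => D n j) := (Finset.mem_filter.1 hj).2
    exact (hi₀ j h1).trans h1
  set Ω₁ : Set ℕ := {n | Spec M δ P T C (Xa P a n) (D n) ∧ ∀ j ∈ A, ∀ T' : Set V, T'.Finite →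
    T' ⊆ P → ∀ᶠ m in UF, RE M T' (D n j : Set V) (D m j : Set V)} with hΩ₁def
  have hΩ₁ : Ω₁ ∈ UF := by
    have h1 : ∀ᶠ n in UF, ∀ j ∈ A, ∀ T' : Set V, T'.Finite →
        T' ⊆ P → ∀ᶠ m in UF, RE M T' (D n j : Set V) (D m j : Set V) :=
      (Filter.eventually_all_finset A).2 fun j hj => hAA j hj
    exact hD.and h1
  -- one index for all finite sets
  have key : ∀ n ∈ Ω₁, ∃ l, l ∉ A ∧ ∀ T' : Set V, T'.Finite → T' ⊆ P →
      ∀ᶠ m in UF, RE M T' (D n i₀ : Set V) (D m l : Set V) := by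
    intro n hn
    by_contra hno
    push Not at hno
    have hno' : ∀ l : Fin q, ∃ T' : Set V, T'.Finite ∧ T' ⊆ P ∧ (l ∉ A →
        ¬ ∀ᶠ m in UF, RE M T' (D n i₀ : Set V) (D m l : Set V)) := by
      intro l
      by_cases hl : l ∈ A
      · exact ⟨∅, Set.finite_empty, Set.empty_subset _, fun h => absurd hl h⟩
      · obtain ⟨T', h1, h2, h3⟩ := hno l hl
        exact ⟨T', h1, h2, fun _ => uf_not.2 h3⟩
    choose Tl hTl1 hTl2 hTl3 using hno'
    obtain ⟨x, hx, hxD⟩ := hn.1.1 i₀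
    obtain ⟨T₀, hT₀f, hT₀P, hT₀⟩ := cmp_conn (M := M) (δ := δ) (P := P)
      (X := (Xa P a n : Set V)) (Finset.finite_toSet _) (Xa_sub n) x
    set T' : Set V := (T ∪ T₀) ∪ ((a n : Set V) ∩ P) ∪ ⋃ l, Tl l with hT'
    have hT'f : T'.Finite := ((hT.union hT₀f).union ((Finset.finite_toSet _).inter_of_left _)).union
      (Set.finite_iUnion hTl1)
    have hT'P : T' ⊆ P := by
      rintro y (((hy | hy) | hy) | hy)
      · exact hTP hy
      · exact hT₀P hy
      · exact hy.2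
      · obtain ⟨l, hl⟩ := Set.mem_iUnion.1 hy
        exact hTl2 l hl
    have hT₀T' : T₀ ⊆ T' := fun y hy => Or.inl (Or.inl (Or.inr hy))
    obtain ⟨l, hlA, hl⟩ := claim_beta hC hCne hc D hD A Ω₁ hΩ₁ (fun j hj => hj.1)
      (fun j hj => hj.2) hn i₀ hT'f hT'P (fun y hy => Or.inl (Or.inl (Or.inl hy)))
      (fun y hy => Or.inl (Or.inr hy)) (by
        rw [hxD]
        exact hT₀ T' hT₀T' hT'P)
    apply hTl3 l hlA
    filter_upwards [hl] with m hm
    exact RE.root hm (fun y hy => Or.inr (Set.mem_iUnion.2 ⟨l, hy⟩))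
  have hfin : ∀ᶠ n in UF, ∃ l : Fin q, l ∉ A ∧ ∀ T' : Set V, T'.Finite → T' ⊆ P →
      ∀ᶠ m in UF, RE M T' (D n i₀ : Set V) (D m l : Set V) := by
    filter_upwards [hΩ₁] with n hn
    exact key n hn
  obtain ⟨l, hl⟩ := uf_exists hfin
  obtain ⟨n, hn⟩ := hl.exists
  apply hn.1
  rw [hA, Finset.mem_filter]
  refine ⟨Finset.mem_univ _, ?_⟩
  filter_upwards [hl] with n hn'
  exact hn'.2

end Pool.Agent.Lib.MP_4fb322_lc_h91x
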