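import Mathlib
import Pool.Agent.Lib.MP_4fb322_lc_h91x.X01
import Pool.Agent.Lib.MP_4fb322_lc_h91x.X11
import Pool.Agent.Lib.MP_4fb322_lc_h91x.X12
import Pool.Agent.Lib.MP_4fb322_lc_h91x.X17

set_option autoImplicit false

/-!
# Weakly sparse ages of arbitrary arity: assembly
-/

namespace Pool.Agent.Lib.MP_4fb322_lc_h91x

open Set Pool.Agent.Lib.MP_4fb322_lc_h70 Pool.Agent.Lib.MP_4fb322_lc_h91
open Pool.Agent.Lib.MP_4fb322_lc_h21

variable {I : Type} {ar : I → ℕ}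

theorem noAntichain_of_weaklySparse [Finite I] {δ : I → Prop} {t : ℕ}
    {𝒜 : Set (Str ar)} (h𝒜 : IsAge 𝒜) (hK : ∀ C ∈ 𝒜, ¬ HasBiclique C.2 δ t)
    (hwf : SubagesWF 𝒜) : NoAntichain 𝒜 := by
  by_contra hna
  obtain ⟨V, M, P, pc, a, hC, hmin⟩ := exists_core_min h𝒜 hK hwf hna
  obtain ⟨a', hC2⟩ := core2_of_core hC hmin
  have hT : ((a' 0 : Set V) ∩ P).Finite := (a' 0).finite_toSet.subset Set.inter_subset_left
  obtain ⟨C, hCne, hCP, hconn, hCm, hnr⟩ := step_alpha hC2 hT Set.inter_subset_right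
    subset_rfl
  obtain ⟨q, D, hq, hD⟩ := exists_spec (δ := δ) Set.inter_subset_right (Xa P a')
    (fun m => Xa_sub m) hCne hconn hCm hnr
  exact step_beta hC2 hT Set.inter_subset_right hCne hnr hq D hD

end Pool.Agent.Lib.MP_4fb322_lc_h91x
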